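import Pool.Agent.U269.CP.Max7

set_option autoImplicit false

/-!
# Correspondence packing and the maximum degree
-/

namespace Pool.Agent.U269.CP

open Finset Function

variable {V : Type} {k : ℕ}

theorem max_arith2 {k d D s c R : ℕ} (h1 : k < 2 * d) (h2 : d ≤ D) (hk : 12 * D ≤ 7 * k)
    (hs : s ≤ d) (hc : c ≤ d) (hsc : k + 1 ≤ s + c) (hR : 2 * D + 2 * d + 1 = 2 * k + R)
    (hcount : 2 * c * s ≤ d * s + d * R) (hcount' : 2 * s * c ≤ d * c + d * R) : False := by
  have main : ∀ s c : ℕ, s ≤ c → s ≤ d → c ≤ d → k + 1 ≤ s + c →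
      2 * c * s ≤ d * s + d * R → False := by
    intro s c hsc' hs hc hsc hcount
    zify at *
    have b0 : (k + 1 : ℤ) * (k + 1 - d) ≤ 2 * (s * (2 * c - d)) := by
      rcases le_total (2 * (s : ℤ)) (k + 1) with h | h
      · have e1 : (0 : ℤ) ≤ (k + 1 - 2 * s) * (s - (k + 1 - d)) :=
          mul_nonneg (by linarith) (by linarith)
        have e2 : (0 : ℤ) ≤ s * (c - (k + 1 - s)) := mul_nonneg (by positivity) (by linarith)
        have e3 : (0 : ℤ) ≤ (k + 1 - 2 * s) * (2 * d - (k + 1)) :=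
          mul_nonneg (by linarith) (by linarith)
        nlinarith
      · have e1 : (0 : ℤ) ≤ (2 * s - (k + 1)) * (2 * c - d) :=
          mul_nonneg (by linarith) (by linarith)
        have e2 : (0 : ℤ) ≤ (k + 1) * (2 * c - (k + 1)) := mul_nonneg (by positivity) (by linarith)
        nlinarith
    have b1 : (k + 1 : ℤ) * (k + 1 - d) ≤ 2 * (d * R) := by nlinarith
    have b2 : (k + 1 : ℤ) * (k + 1 - D) ≤ (k + 1) * (k + 1 - d) :=
      mul_le_mul_of_nonneg_left (by linarith) (by positivity)
    have b3 : (d : ℤ) * R ≤ D * (4 * D + 1 - 2 * k) :=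
      mul_le_mul (by linarith) (by linarith) (by positivity) (by positivity)
    have b4 : (0 : ℤ) ≤ (7 * k - 12 * D) * k := mul_nonneg (by linarith) (by positivity)
    have b5 : (0 : ℤ) ≤ (7 * k - 12 * D) * D := mul_nonneg (by linarith) (by positivity)
    have b6 : (0 : ℤ) < D := by linarith
    nlinarith
  rcases le_total s c with h | h
  · exact main s c h hs hc hsc hcount
  · exact main c s h hc hs (by omega) hcount'

/-- In a graph of maximum degree at most `D`, with `12D ≤ 7k`, every vertex is reducible. -/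
theorem extend_max2 [DecidableEq V] {D : ℕ} (hD : 3 ≤ D) (hk : 12 * D ≤ 7 * k)
    (G : SimpleGraph V) (M : V → V → Fin k → Fin k → Prop)
    (hsymm : ∀ u v i j, M u v i j → M v u j i)
    (hmat : ∀ u v, G.Adj u v → ∀ i j j', M u v i j → M u v i j' → j = j')
    (W : Finset V) (u : V)
    (hd1 : k < 2 * (nb G (W.erase u) u).card) (hd2 : (nb G (W.erase u) u).card ≤ D)
    (hlow : ∀ v ∈ nb G (W.erase u) u, (nb G ((W.erase u).erase v) v).card + 1 ≤ D)
    (φ : V → Fin k → Fin k) (hφ : PackOn G M (W.erase u) φ) :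
    ∃ ψ, PackOn G M W ψ := by
  by_contra hcon
  push Not at hcon
  have hmat' : ∀ u v, G.Adj u v → ∀ i i' j, M u v i j → M u v i' j → i = i' := by
    intro a b hab i i' j h h'
    exact hmat b a hab.symm _ _ _ (hsymm _ _ _ _ h) (hsymm _ _ _ _ h')
  set N := nb G (W.erase u) u with hN
  set d := N.card with hd
  -- any packing of the rest is blocked at `u`
  have hblk : ∀ ψ : V → Fin k → Fin k, PackOn G M (W.erase u) ψ →
      ∃ S C : Finset (Fin k), k + 1 ≤ S.card + C.card ∧ S.card ≤ d ∧ C.card ≤ d ∧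
        ∀ t ∈ S, ∀ c ∈ C, Fb M ψ u N t c := by
    intro ψ hp
    obtain ⟨S, C, h1, h2⟩ := hall_rect (Fb M ψ u N) (by
      rintro ⟨y, hy, hy'⟩
      exact hcon _ (extend G M hsymm W u _ hp y hy hy'))
    have h3 := rect_card (Fb M ψ u N)
      (fun t B hB => Fb_row M _ u _ (fun w hw => hmat w u (mem_nb.mp hw).2.symm) t B hB)
      (fun c B hB => Fb_col M _ u _ (fun w hw => hmat' w u (mem_nb.mp hw).2.symm)
        (fun w hw => hp.1 w (mem_nb.mp hw).1) c B hB) h1 h2
    exact ⟨S, C, h1, h3.1, h3.2, h2⟩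
  obtain ⟨S, C, hSC, hS, hC, hP⟩ := hblk φ hφ
  -- the critical rows of a neighbour
  classical
  let T : V → Finset (Fin k) := fun w => S.filter (fun t => ∃ c ∈ C, M w u (φ w t) c ∧
    ∀ w' ∈ N, w' ≠ w → ¬ M w' u (φ w' t) c)
  -- each low neighbour has few critical rows
  have hfew : ∀ v ∈ N, (T v).card + 2 * k ≤ 2 * D + 2 * d + 1 := by
    intro v hv
    have hvW : v ∈ W.erase u := (mem_nb.mp hv).1
    have huv : G.Adj u v := (mem_nb.mp hv).2
    have hdv := hlow v hv
    set Nv := nb G ((W.erase u).erase v) v with hNv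
    have hNvu : ∀ w ∈ Nv, w ∈ W.erase u ∧ G.Adj v w ∧ w ≠ v := by
      intro w hw
      rw [hNv] at hw
      have := mem_nb.mp hw
      exact ⟨(mem_erase.mp this.1).2, this.2, (mem_erase.mp this.1).1⟩
    have hx0 : Injective (φ v) := hφ.1 v hvW
    have hx0' : ∀ t, ¬ Fb M φ v Nv t (φ v t) := by
      rintro t ⟨w, hw, hM⟩
      exact hφ.2 w (hNvu w hw).1 v hvW (hNvu w hw).2.1.symm t hM
    obtain ⟨x, hx, hx', hag⟩ := few_agree (δ := k - (Nv.card + 1))
      (fun t c => ¬ Fb M φ v Nv t c) (φ v) hx0 hx0'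
      (fun t => by
        obtain ⟨B, h1, h2⟩ := compl_ge (fun c => Fb M φ v Nv t c) (fun B hB =>
          (Fb_row M φ v Nv (fun w hw => hmat w v (hNvu w hw).2.1.symm) t B hB))
        exact ⟨B, h1, by omega⟩)
      (fun c => by
        obtain ⟨B, h1, h2⟩ := compl_ge (fun t => Fb M φ v Nv t c) (fun B hB =>
          (Fb_col M φ v Nv (fun w hw => hmat' w v (hNvu w hw).2.1.symm)
            (fun w hw => hφ.1 w (hNvu w hw).1) c B hB))
        exact ⟨B, h1, by omega⟩)
      (by omega)
    have hp : PackOn G M (W.erase u) (Function.update φ v x) := by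
      refine extend G M hsymm (W.erase u) v φ ?_ x hx hx'
      exact ⟨fun a ha => hφ.1 a (mem_erase.mp ha).2, fun a ha b hb =>
        hφ.2 a (mem_erase.mp ha).2 b (mem_erase.mp hb).2⟩
    obtain ⟨S', C', hSC', hS', hC', hP'⟩ := hblk _ hp
    set N' := N.erase v with hN'
    have hN'u : ∀ w ∈ N', w ∈ W.erase u ∧ G.Adj u w ∧ w ≠ v := by
      intro w hw
      rw [hN', mem_erase] at hw
      exact ⟨(mem_nb.mp hw.2).1, (mem_nb.mp hw.2).2, hw.1⟩
    have hN'c : N'.card + 1 = d := card_erase_add_one hv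
    have hnear := near_rect' (d := d) (by omega) (Fb M φ u N') (fun a c => M v u a c)
      (fun a c c' h h' => hmat v u huv.symm a c c' h h')
      (fun a a' c h h' => hmat' v u huv.symm a a' c h h')
      (fun t B hB => by
        have := Fb_row M φ u N' (fun w hw => hmat w u (hN'u w hw).2.1.symm) t B hB
        omega)
      (fun c B hB => by
        have := Fb_col M φ u N' (fun w hw => hmat' w u (hN'u w hw).2.1.symm)
          (fun w hw => hφ.1 w (hN'u w hw).1) c B hB
        omega)
      (φ v) x hx0 hx hSC hSC' hS hC hS' hC'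
      (fun t ht c hc => by
        obtain ⟨w, hw, hM⟩ := hP t ht c hc
        by_cases hwv : w = v
        · subst hwv
          exact Or.inr hM
        · exact Or.inl ⟨w, mem_erase.mpr ⟨hwv, hw⟩, hM⟩)
      (fun t ht c hc => by
        obtain ⟨w, hw, hM⟩ := hP' t ht c hc
        by_cases hwv : w = v
        · subst hwv
          rw [Function.update_self] at hM
          exact Or.inr hM
        · rw [Function.update_of_ne hwv] at hM
          exact Or.inl ⟨w, mem_erase.mpr ⟨hwv, hw⟩, hM⟩)
      ((T v).filter (fun t => x t ≠ φ v t))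
      (fun t ht => by
        rw [mem_filter, mem_filter] at ht
        obtain ⟨⟨htS, c, hcC, hMc, huniq⟩, hne⟩ := ht
        refine ⟨htS, hne, c, hcC, hMc, ?_⟩
        rintro ⟨w, hw, hM⟩
        exact huniq w (mem_erase.mp hw).2 (mem_erase.mp hw).1 hM)
    have h3 : ((T v).filter (fun t => x t = φ v t)).card +
        ((T v).filter (fun t => x t ≠ φ v t)).card = (T v).card :=
      card_filter_add_card_filter_not _
    rcases hag ((T v).filter (fun t => x t = φ v t)) (fun t ht => (mem_filter.mp ht).2) with h | h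
    · omega
    · rw [h, card_empty] at h3
      omega
  -- counting
  have hrow : ∀ t ∈ S, 2 * C.card ≤ d + (N.filter (fun w => t ∈ T w)).card := by
    intro t ht
    refine crit_row N C (fun w c => M w u (φ w t) c)
      (fun w hw c c' h h' => hmat w u (mem_nb.mp hw).2.symm _ _ _ h h')
      (fun c hc => hP t ht c hc) _ ?_
    intro w hw hex
    exact mem_filter.mpr ⟨hw, mem_filter.mpr ⟨ht, hex⟩⟩
  have hsum := sum_le_sum hrow
  rw [sum_add_distrib, sum_const, sum_const, smul_eq_mul, smul_eq_mul] at hsum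
  have hswap : ∑ t ∈ S, (N.filter (fun w => t ∈ T w)).card = ∑ w ∈ N, (T w).card := by
    have : ∀ w ∈ N, (T w).card = (S.filter (fun t => t ∈ T w)).card := by
      intro w _
      congr 1
      ext t
      exact ⟨fun h => mem_filter.mpr ⟨(mem_filter.mp h).1, h⟩, fun h => (mem_filter.mp h).2⟩
    rw [sum_congr rfl this]
    simp only [card_filter]
    exact sum_comm
  have hsplit : ∑ w ∈ N, (T w).card ≤ d * (2 * D + 2 * d + 1 - 2 * k) := by
    calc ∑ w ∈ N, (T w).card ≤ ∑ _w ∈ N, (2 * D + 2 * d + 1 - 2 * k) := sum_le_sum (fun w hw => by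
            have := hfew w hw
            omega)
      _ = _ := by rw [sum_const, smul_eq_mul]
  have hne : ∃ R, 2 * D + 2 * d + 1 = 2 * k + R := ⟨2 * D + 2 * d + 1 - 2 * k, by
    have : N.Nonempty := card_pos.mp (by omega)
    obtain ⟨w, hw⟩ := this
    have := hfew w hw
    omega⟩
  obtain ⟨R, hR⟩ := hne
  have e1 : 2 * D + 2 * d + 1 - 2 * k = R := by omega
  rw [e1] at hsplit
  rw [hswap] at hsum
  -- the same count by columns
  let T' : V → Finset (Fin k) := fun w => C.filter (fun c => ∃ t ∈ S, M w u (φ w t) c ∧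
    ∀ w' ∈ N, w' ≠ w → ¬ M w' u (φ w' t) c)
  have hTT : ∀ w ∈ N, (T' w).card ≤ (T w).card := by
    intro w hw
    have hex : ∀ c ∈ T' w, ∃ t ∈ T w, M w u (φ w t) c := by
      intro c hc
      obtain ⟨hcC, t, htS, hM, hun⟩ := mem_filter.mp hc
      exact ⟨t, mem_filter.mpr ⟨htS, c, hcC, hM, hun⟩, hM⟩
    choose! f hf hf' using hex
    refine card_le_card_of_injOn f (fun c hc => hf c hc) ?_
    intro c hc c' hc' he
    have g1 := hf' c hc
    have g2 := hf' c' hc'
    rw [← he] at g2
    exact hmat w u (mem_nb.mp hw).2.symm _ _ _ g1 g2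
  have hcol : ∀ c ∈ C, 2 * S.card ≤ d + (N.filter (fun w => c ∈ T' w)).card := by
    intro c hc
    refine crit_row N S (fun w t => M w u (φ w t) c)
      (fun w hw t t' h h' => hφ.1 w (mem_nb.mp hw).1
        (hmat' w u (mem_nb.mp hw).2.symm _ _ _ h h'))
      (fun t ht => hP t ht c hc) _ ?_
    intro w hw hex
    exact mem_filter.mpr ⟨hw, mem_filter.mpr ⟨hc, hex⟩⟩
  have hsum' := sum_le_sum hcol
  rw [sum_add_distrib, sum_const, sum_const, smul_eq_mul, smul_eq_mul] at hsum'
  have hswap' : ∑ c ∈ C, (N.filter (fun w => c ∈ T' w)).card = ∑ w ∈ N, (T' w).card := by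
    have : ∀ w ∈ N, (T' w).card = (C.filter (fun c => c ∈ T' w)).card := by
      intro w _
      congr 1
      ext t
      exact ⟨fun h => mem_filter.mpr ⟨(mem_filter.mp h).1, h⟩, fun h => (mem_filter.mp h).2⟩
    rw [sum_congr rfl this]
    simp only [card_filter]
    exact sum_comm
  have hTT' := sum_le_sum hTT
  rw [hswap'] at hsum'
  exact max_arith2 hd1 hd2 hk hS hC hSC hR (by nlinarith) (by nlinarith)

theorem pack_all_max2 {D : ℕ} (hD : 3 ≤ D) (hk : 12 * D ≤ 7 * k)
    (G : SimpleGraph V) (M : V → V → Fin k → Fin k → Prop)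
    (hsymm : ∀ u v i j, M u v i j → M v u j i)
    (hmat : ∀ u v, G.Adj u v → ∀ i j j', M u v i j → M u v i j' → j = j')
    (hs : ∀ (W : Finset V) (v : V), (nb G W v).card ≤ D) :
    ∀ n, ∀ W : Finset V, W.card = n → ∃ φ, PackOn G M W φ := by
  classical
  intro n
  induction n with
  | zero =>
    intro W hW
    rw [card_eq_zero] at hW
    subst hW
    exact ⟨fun _ => id, by simp, by simp⟩
  | succ n ih =>
    intro W hW
    have hne : W.Nonempty := card_pos.mp (by omega)
    obtain ⟨u, hu⟩ := hne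
    obtain ⟨φ, hφ⟩ := ih (W.erase u) (by rw [card_erase_of_mem hu]; omega)
    by_cases hsm : 2 * (nb G (W.erase u) u).card ≤ k
    · exact extend_small G M hsymm hmat W u hsm φ hφ
    · refine extend_max2 hD hk G M hsymm hmat W u (by omega) (hs _ _) ?_ φ hφ
      intro v hv
      have : nb G ((W.erase u).erase v) v ⊆ (nb G W v).erase u := by
        intro w hw
        rw [mem_nb, mem_erase, mem_erase] at hw
        rw [mem_erase, mem_nb]
        exact ⟨hw.1.2.1, hw.1.2.2, hw.2⟩
      have h1 := card_le_card this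
      have h2 := card_erase_add_one (mem_nb.mpr ⟨hu, (mem_nb.mp hv).2.symm⟩ : u ∈ nb G W v)
      have h3 := hs W v
      omega

end Pool.Agent.U269.CP
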