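import Pool.Agent.U269.CP.Ext

set_option autoImplicit false

/-!
# Discharging and the induction
-/

namespace Pool.Agent.U269.CP

open Finset Function

variable {V : Type} {k : ℕ}

theorem nb_card [DecidableEq V] (G : SimpleGraph V) [DecidableRel G.Adj] (W : Finset V) (v : V) :
    (nb G W v).card = ∑ w ∈ W, if G.Adj v w then 1 else 0 := by
  have : nb G W v = W.filter (fun w => G.Adj v w) := by
    ext w
    rw [mem_nb, mem_filter]
  rw [this, card_filter]

theorem exists_config (G : SimpleGraph V) (W : Finset V) (j : ℕ) (hj : 3 ≤ j)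
    (hs : ∑ v ∈ W, (nb G W v).card < (j + 1) * W.card) :
    (∃ v ∈ W, (nb G W v).card + 1 ≤ j) ∨
      ∃ u ∈ W, ∃ v ∈ W, G.Adj u v ∧ (nb G W u).card = j ∧ (nb G W v).card ≤ j + 2 := by
  classical
  by_contra hcon
  push Not at hcon
  obtain ⟨h1, h2⟩ := hcon
  set L := W.filter (fun v => (nb G W v).card = j) with hL
  have hdc : ∑ u ∈ L, (nb G W u).card = ∑ v ∈ W, (nb G L v).card := by
    simp only [nb_card]
    rw [sum_comm]
    refine sum_congr rfl (fun v _ => sum_congr rfl (fun u _ => ?_))
    simp only [G.adj_comm]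
  have hL2 : ∑ u ∈ L, (nb G W u).card = j * L.card := by
    have hL' : ∀ u ∈ L, (nb G W u).card = j := by
      intro u hu
      rw [hL, mem_filter] at hu
      exact hu.2
    rw [sum_congr rfl hL', sum_const, smul_eq_mul, mul_comm]
  have hpt : ∀ v ∈ W, (nb G L v).card + j * (j + 1) ≤
      j * (nb G W v).card + (if (nb G W v).card = j then j else 0) := by
    intro v hv
    have hle : (nb G L v).card ≤ (nb G W v).card := card_le_card (fun w hw => by
      rw [mem_nb] at hw ⊢
      exact ⟨(mem_filter.mp (hL ▸ hw.1)).1, hw.2⟩)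
    have hge := h1 v hv
    by_cases hne : (nb G L v).Nonempty
    · obtain ⟨w, hw⟩ := hne
      rw [mem_nb, hL, mem_filter] at hw
      have h3 := h2 w hw.1.1 v hv hw.2.symm hw.1.2
      rw [if_neg (by omega)]
      obtain ⟨e, he⟩ : ∃ e, (nb G W v).card = j + 3 + e := ⟨(nb G W v).card - (j + 3), by omega⟩
      rw [he] at hle ⊢
      nlinarith
    · rw [not_nonempty_iff_eq_empty] at hne
      rw [hne, card_empty]
      split_ifs with h
      · rw [h]; ring_nf; exact le_rfl
      · have : j + 1 ≤ (nb G W v).card := by omega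
        nlinarith
  have hsum := sum_le_sum hpt
  rw [sum_add_distrib, sum_add_distrib, ← hdc, hL2, sum_const, smul_eq_mul, ← mul_sum,
    ← sum_filter, sum_const, smul_eq_mul, ← hL] at hsum
  nlinarith

theorem pack_all {j : ℕ} (hk : k + 1 = 2 * j) (hj : 4 ≤ j)
    (G : SimpleGraph V) (M : V → V → Fin k → Fin k → Prop)
    (hsymm : ∀ u v i j, M u v i j → M v u j i)
    (hmat : ∀ u v, G.Adj u v → ∀ i j j', M u v i j → M u v i j' → j = j')
    (hs : ∀ W : Finset V, W.Nonempty → ∑ v ∈ W, (nb G W v).card < (j + 1) * W.card) :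
    ∀ n, ∀ W : Finset V, W.card = n → ∃ φ, PackOn G M W φ := by
  classical
  intro n
  induction n with
  | zero =>
    intro W hW
    rw [card_eq_zero] at hW
    subst hW
    exact ⟨fun _ => id, by simp, by simp⟩
  | succ n ih =>
    intro W hW
    have hne : W.Nonempty := card_pos.mp (by omega)
    have hnb : ∀ v, nb G (W.erase v) v = nb G W v := by
      intro v
      ext w
      rw [mem_nb, mem_nb, mem_erase]
      exact ⟨fun h => ⟨h.1.2, h.2⟩, fun h => ⟨⟨h.2.ne.symm, h.1⟩, h.2⟩⟩
    rcases exists_config G W j (by omega) (hs W hne) with ⟨v, hv, hd⟩ | ⟨u, hu, v, hv, huv, hdu, hdv⟩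
    · obtain ⟨φ, hφ⟩ := ih (W.erase v) (by rw [card_erase_of_mem hv]; omega)
      exact extend_small G M hsymm hmat W v (by rw [hnb]; omega) φ hφ
    · obtain ⟨φ, hφ⟩ := ih (W.erase u) (by rw [card_erase_of_mem hu]; omega)
      refine extend_pair hk hj G M hsymm hmat W u v hv huv (by rw [hnb]; omega) ?_ φ hφ
      have : nb G ((W.erase u).erase v) v ⊆ (nb G W v).erase u := by
        intro w hw
        rw [mem_nb, mem_erase, mem_erase] at hw
        rw [mem_erase, mem_nb]
        exact ⟨hw.1.2.1, hw.1.2.2, hw.2⟩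
      have h1 := card_le_card this
      have h2 := card_erase_add_one (mem_nb.mpr ⟨hu, huv.symm⟩ : u ∈ nb G W v)
      omega

end Pool.Agent.U269.CP
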