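import Pool.Agent.U269.CP.Match

set_option autoImplicit false

/-!
# Extending partial packings
-/

namespace Pool.Agent.U269.CP

open Finset Function

variable {V : Type} {k : ℕ}

/-- neighbours of `v` inside `W` -/
noncomputable def nb (G : SimpleGraph V) (W : Finset V) (v : V) : Finset V := by
  classical exact W.filter (fun w => G.Adj v w)

theorem mem_nb {G : SimpleGraph V} {W : Finset V} {v w : V} :
    w ∈ nb G W v ↔ w ∈ W ∧ G.Adj v w := by
  classical
  unfold nb
  simp

/-- a packing on the vertices of `W` -/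
def PackOn (G : SimpleGraph V) (M : V → V → Fin k → Fin k → Prop) (W : Finset V)
    (φ : V → Fin k → Fin k) : Prop :=
  (∀ v ∈ W, Injective (φ v)) ∧ ∀ u ∈ W, ∀ v ∈ W, G.Adj u v → ∀ t, ¬ M u v (φ u t) (φ v t)

/-- forbidden by some vertex of `N` -/
def Fb (M : V → V → Fin k → Fin k → Prop) (φ : V → Fin k → Fin k) (u : V) (N : Finset V)
    (t c : Fin k) : Prop := ∃ w ∈ N, M w u (φ w t) c

theorem Fb_row (M : V → V → Fin k → Fin k → Prop) (φ : V → Fin k → Fin k) (u : V)
    (N : Finset V) (hM : ∀ w ∈ N, ∀ a c c', M w u a c → M w u a c' → c = c')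
    (t : Fin k) (B : Finset (Fin k)) (hB : ∀ c ∈ B, Fb M φ u N t c) : B.card ≤ N.card := by
  classical
  have h1 : B ⊆ N.biUnion (fun w => univ.filter (fun c => M w u (φ w t) c)) := by
    intro c hc
    obtain ⟨w, hw, h⟩ := hB c hc
    exact mem_biUnion.mpr ⟨w, hw, mem_filter.mpr ⟨mem_univ _, h⟩⟩
  have h2 : (N.biUnion (fun w => univ.filter (fun c => M w u (φ w t) c))).card ≤ N.card * 1 := by
    apply card_biUnion_le_card_mul
    intro w hw
    rw [card_le_one]
    intro a ha b hb
    exact hM w hw _ _ _ (mem_filter.mp ha).2 (mem_filter.mp hb).2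
  have h3 := card_le_card h1
  omega

theorem Fb_col (M : V → V → Fin k → Fin k → Prop) (φ : V → Fin k → Fin k) (u : V)
    (N : Finset V) (hM : ∀ w ∈ N, ∀ a a' c, M w u a c → M w u a' c → a = a')
    (hφ : ∀ w ∈ N, Injective (φ w))
    (c : Fin k) (B : Finset (Fin k)) (hB : ∀ t ∈ B, Fb M φ u N t c) : B.card ≤ N.card := by
  classical
  have h1 : B ⊆ N.biUnion (fun w => univ.filter (fun t => M w u (φ w t) c)) := by
    intro t ht
    obtain ⟨w, hw, h⟩ := hB t ht
    exact mem_biUnion.mpr ⟨w, hw, mem_filter.mpr ⟨mem_univ _, h⟩⟩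
  have h2 : (N.biUnion (fun w => univ.filter (fun t => M w u (φ w t) c))).card ≤ N.card * 1 := by
    apply card_biUnion_le_card_mul
    intro w hw
    rw [card_le_one]
    intro a ha b hb
    exact hφ w hw (hM w hw _ _ _ (mem_filter.mp ha).2 (mem_filter.mp hb).2)
  have h3 := card_le_card h1
  omega

theorem compl_ge {d : ℕ} (q : Fin k → Prop) (h : ∀ B : Finset (Fin k), (∀ c ∈ B, q c) → B.card ≤ d) :
    ∃ B : Finset (Fin k), (∀ c ∈ B, ¬ q c) ∧ k - d ≤ B.card := by
  classical
  refine ⟨univ.filter (fun c => ¬ q c), fun c hc => (mem_filter.mp hc).2, ?_⟩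
  have h1 := h (univ.filter q) (fun c hc => (mem_filter.mp hc).2)
  have e : (univ.filter q).card + (univ.filter (fun c => ¬ q c)).card
      = (univ : Finset (Fin k)).card := card_filter_add_card_filter_not _
  rw [card_univ, Fintype.card_fin] at e
  omega

/-- extending to a vertex with an allowed choice -/
theorem extend [DecidableEq V] (G : SimpleGraph V) (M : V → V → Fin k → Fin k → Prop)
    (hsymm : ∀ u v i j, M u v i j → M v u j i) (W : Finset V) (u : V)
    (φ : V → Fin k → Fin k) (hφ : PackOn G M (W.erase u) φ) (y : Fin k → Fin k)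
    (hy : Injective y) (hy' : ∀ t, ¬ Fb M φ u (nb G (W.erase u) u) t (y t)) :
    PackOn G M W (Function.update φ u y) := by
  have hval : ∀ w, w ≠ u → Function.update φ u y w = φ w := fun w hw => Function.update_of_ne hw _ _
  have key : ∀ w ∈ W, G.Adj w u → ∀ t, ¬ M w u (Function.update φ u y w t) (y t) := by
    intro w hw hwu t h
    rw [hval w hwu.ne] at h
    exact hy' t ⟨w, mem_nb.mpr ⟨mem_erase.mpr ⟨hwu.ne, hw⟩, hwu.symm⟩, h⟩
  refine ⟨?_, ?_⟩
  · intro v hv
    by_cases h : v = u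
    · subst h
      rw [Function.update_self]
      exact hy
    · rw [hval v h]
      exact hφ.1 v (mem_erase.mpr ⟨h, hv⟩)
  · intro a ha b hb hab t
    by_cases h1 : b = u
    · subst h1
      intro hM
      rw [Function.update_self] at hM
      exact key a ha hab t hM
    · by_cases h2 : a = u
      · subst h2
        intro hM
        have hM' := hsymm _ _ _ _ hM
        rw [Function.update_self] at hM'
        exact key b hb hab.symm t hM'
      · rw [hval a h2, hval b h1]
        exact hφ.2 a (mem_erase.mpr ⟨h2, ha⟩) b (mem_erase.mpr ⟨h1, hb⟩) hab t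

/-- a vertex of small degree -/
theorem extend_small [DecidableEq V] (G : SimpleGraph V) (M : V → V → Fin k → Fin k → Prop)
    (hsymm : ∀ u v i j, M u v i j → M v u j i)
    (hmat : ∀ u v, G.Adj u v → ∀ i j j', M u v i j → M u v i j' → j = j')
    (W : Finset V) (u : V) (hd : 2 * (nb G (W.erase u) u).card ≤ k)
    (φ : V → Fin k → Fin k) (hφ : PackOn G M (W.erase u) φ) :
    ∃ ψ, PackOn G M W ψ := by
  by_contra hcon
  push Not at hcon
  obtain ⟨S, C, h1, h2⟩ := hall_rect (Fb M φ u (nb G (W.erase u) u)) (by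
    rintro ⟨y, hy, hy'⟩
    exact hcon _ (extend G M hsymm W u φ hφ y hy hy'))
  have h3 := rect_card (Fb M φ u (nb G (W.erase u) u))
    (fun t B hB => Fb_row M φ u _ (fun w hw => hmat w u (mem_nb.mp hw).2.symm) t B hB)
    (fun c B hB => Fb_col M φ u _ (fun w hw a a' c h h' =>
      hmat u w (mem_nb.mp hw).2 _ _ _ (hsymm _ _ _ _ h) (hsymm _ _ _ _ h'))
      (fun w hw => hφ.1 w (mem_nb.mp hw).1) c B hB) h1 h2
  omega

/-- a vertex `u` of degree `j` with a neighbour `v` of degree at most `j + 2` -/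
theorem extend_pair [DecidableEq V] {j : ℕ} (hk : k + 1 = 2 * j) (hj : 4 ≤ j)
    (G : SimpleGraph V) (M : V → V → Fin k → Fin k → Prop)
    (hsymm : ∀ u v i j, M u v i j → M v u j i)
    (hmat : ∀ u v, G.Adj u v → ∀ i j j', M u v i j → M u v i j' → j = j')
    (W : Finset V) (u v : V) (hv : v ∈ W) (huv : G.Adj u v)
    (hdu : (nb G (W.erase u) u).card ≤ j)
    (hdv : (nb G ((W.erase u).erase v) v).card ≤ j + 1)
    (φ : V → Fin k → Fin k) (hφ : PackOn G M (W.erase u) φ) :
    ∃ ψ, PackOn G M W ψ := by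
  by_contra hcon
  push Not at hcon
  have hmat' : ∀ u v, G.Adj u v → ∀ i i' j, M u v i j → M u v i' j → i = i' := by
    intro a b hab i i' j h h'
    exact hmat b a hab.symm _ _ _ (hsymm _ _ _ _ h) (hsymm _ _ _ _ h')
  have hvW : v ∈ W.erase u := mem_erase.mpr ⟨huv.ne.symm, hv⟩
  set N := (nb G (W.erase u) u).erase v with hN
  have hNu : ∀ w ∈ N, w ∈ W.erase u ∧ G.Adj u w ∧ w ≠ v := by
    intro w hw
    rw [hN, mem_erase] at hw
    exact ⟨(mem_nb.mp hw.2).1, (mem_nb.mp hw.2).2, hw.1⟩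
  have hNc : N.card + 1 ≤ j := by
    rw [hN, card_erase_add_one (mem_nb.mpr ⟨hvW, huv⟩)]
    exact hdu
  set Nv := nb G ((W.erase u).erase v) v with hNv
  have hNvu : ∀ w ∈ Nv, w ∈ W.erase u ∧ G.Adj v w ∧ w ≠ v := by
    intro w hw
    rw [hNv] at hw
    have := mem_nb.mp hw
    exact ⟨(mem_erase.mp this.1).2, this.2, (mem_erase.mp this.1).1⟩
  -- packings with `v` recoloured
  have hrec : ∀ x : Fin k → Fin k, Injective x → (∀ t, ¬ Fb M φ v Nv t (x t)) →
      PackOn G M (W.erase u) (Function.update φ v x) := by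
    intro x hx hx'
    refine extend G M hsymm (W.erase u) v φ ?_ x hx hx'
    exact ⟨fun a ha => hφ.1 a (mem_erase.mp ha).2, fun a ha b hb =>
      hφ.2 a (mem_erase.mp ha).2 b (mem_erase.mp hb).2⟩
  -- each recolouring is blocked
  have hblock : ∀ x : Fin k → Fin k, Injective x → (∀ t, ¬ Fb M φ v Nv t (x t)) →
      ∃ S C : Finset (Fin k), S.card = j ∧ C.card = j ∧
        ∀ t ∈ S, ∀ c ∈ C, Fb M φ u N t c ∨ M v u (x t) c := by
    intro x hx hx'
    have hp := hrec x hx hx'
    obtain ⟨S, C, h1, h2⟩ := hall_rect (Fb M (Function.update φ v x) u (nb G (W.erase u) u)) (by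
      rintro ⟨y, hy, hy'⟩
      exact hcon _ (extend G M hsymm W u _ hp y hy hy'))
    have h3 := rect_card (Fb M (Function.update φ v x) u (nb G (W.erase u) u))
      (fun t B hB => Fb_row M _ u _ (fun w hw => hmat w u (mem_nb.mp hw).2.symm) t B hB)
      (fun c B hB => Fb_col M _ u _ (fun w hw => hmat' w u (mem_nb.mp hw).2.symm)
        (fun w hw => hp.1 w (mem_nb.mp hw).1) c B hB) h1 h2
    refine ⟨S, C, by omega, by omega, ?_⟩
    intro t ht c hc
    obtain ⟨w, hw, hM⟩ := h2 t ht c hc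
    by_cases hwv : w = v
    · subst hwv
      rw [Function.update_self] at hM
      exact Or.inr hM
    · rw [Function.update_of_ne hwv] at hM
      exact Or.inl ⟨w, by rw [hN]; exact mem_erase.mpr ⟨hwv, hw⟩, hM⟩
  have hx0 : Injective (φ v) := hφ.1 v hvW
  have hx0' : ∀ t, ¬ Fb M φ v Nv t (φ v t) := by
    rintro t ⟨w, hw, hM⟩
    exact hφ.2 w (hNvu w hw).1 v hvW (hNvu w hw).2.1.symm t hM
  obtain ⟨S, C, hS, hC, hP⟩ := hblock (φ v) hx0 hx0'
  obtain ⟨x, hx, hx', t, htS, hne⟩ := two_matchings (δ := k - (j + 1))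
    (fun t c => ¬ Fb M φ v Nv t c) (φ v) hx0 hx0'
    (fun t => compl_ge (fun c => Fb M φ v Nv t c) (fun B hB =>
      (Fb_row M φ v Nv (fun w hw => hmat w v (hNvu w hw).2.1.symm) t B hB).trans hdv))
    (fun c => compl_ge (fun t => Fb M φ v Nv t c) (fun B hB =>
      (Fb_col M φ v Nv (fun w hw => hmat' w v (hNvu w hw).2.1.symm)
        (fun w hw => hφ.1 w (hNvu w hw).1) c B hB).trans hdv))
    (by omega) S (card_pos.mp (by omega)) (by omega)
  obtain ⟨S', C', hS', hC', hP'⟩ := hblock x hx hx'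
  refine hne (rigid hk (by omega) (Fb M φ u N) (fun a c => M v u a c)
    (fun a c c' h h' => hmat v u huv.symm a c c' h h')
    (fun a a' c h h' => hmat' v u huv.symm a a' c h h')
    (fun t B hB => ?_) (fun c B hB => ?_) (φ v) x hx0 hx hS hC hS' hC' hP hP' t htS).symm
  · have := Fb_row M φ u N (fun w hw => hmat w u (hNu w hw).2.1.symm) t B hB
    omega
  · have := Fb_col M φ u N (fun w hw => hmat' w u (hNu w hw).2.1.symm)
      (fun w hw => hφ.1 w (hNu w hw).1) c B hB
    omega

end Pool.Agent.U269.CP
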