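import Pool.Agent.U269.CP.Match

set_option autoImplicit false

/-!
# Recolouring a vertex almost everywhere, and its effect on blocking rectangles
-/

namespace Pool.Agent.U269.CP

open Finset Function

/-- A perfect matching which agrees with `x0` in few places. -/
theorem few_agree {k δ : ℕ} (R : Fin k → Fin k → Prop) (x0 : Fin k → Fin k)
    (hx : Injective x0) (hR : ∀ t, R t (x0 t))
    (hr : ∀ t, ∃ B : Finset (Fin k), (∀ c ∈ B, R t c) ∧ δ + 1 ≤ B.card)
    (hc : ∀ c, ∃ B : Finset (Fin k), (∀ t ∈ B, R t c) ∧ δ + 1 ≤ B.card)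
    (hδ : 2 ≤ δ) :
    ∃ x : Fin k → Fin k, Injective x ∧ (∀ t, R t (x t)) ∧
      ∀ B : Finset (Fin k), (∀ t ∈ B, x t = x0 t) → B.card + 2 * δ ≤ k ∨ B = ∅ := by
  classical
  -- descent on the number of agreements
  have main : ∀ n : ℕ, ∀ y : Fin k → Fin k, Injective y → (∀ t, R t (y t)) →
      (univ.filter (fun t => y t = x0 t)).card = n →
      ∃ x : Fin k → Fin k, Injective x ∧ (∀ t, R t (x t)) ∧
        ((univ.filter (fun t => x t = x0 t)).card + 2 * δ ≤ k ∨
          (univ.filter (fun t => x t = x0 t)) = ∅) := by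
    intro n
    induction n using Nat.strong_induction_on with
    | _ n ih =>
      intro y hy hyR hn
      by_cases hsm : (univ.filter (fun t => y t = x0 t)).card + 2 * δ ≤ k ∨
          (univ.filter (fun t => y t = x0 t)) = ∅
      · exact ⟨y, hy, hyR, hsm⟩
      push Not at hsm
      obtain ⟨h1, h2⟩ := hsm
      obtain ⟨z, hz, hzR, t, ht, hne⟩ := two_matchings (δ := δ)
        (fun t c => R t c ∧ (y t ≠ x0 t → c ≠ x0 t)) y hy
        (fun t => ⟨hyR t, fun h => h⟩)
        (fun t => by
          obtain ⟨B, hB, hBc⟩ := hr t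
          refine ⟨B.erase (x0 t), fun c hc => ⟨hB c (mem_erase.mp hc).2, fun _ =>
            (mem_erase.mp hc).1⟩, ?_⟩
          have : B.card - 1 ≤ (B.erase (x0 t)).card := pred_card_le_card_erase
          omega)
        (fun c => by
          obtain ⟨B, hB, hBc⟩ := hc c
          obtain ⟨s, rfl⟩ := (Finite.injective_iff_surjective.mp hx) c
          refine ⟨B.erase s, fun t ht => ⟨hB t (mem_erase.mp ht).2, fun _ h =>
            (mem_erase.mp ht).1 (hx h).symm⟩, ?_⟩
          have : B.card - 1 ≤ (B.erase s).card := pred_card_le_card_erase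
          omega)
        hδ (univ.filter (fun t => y t = x0 t)) h2 (by omega)
      have hsub : univ.filter (fun t => z t = x0 t) ⊂ univ.filter (fun t => y t = x0 t) := by
        rw [mem_filter] at ht
        refine ⟨?_, ?_⟩
        · intro s hs
          rw [mem_filter] at hs ⊢
          refine ⟨mem_univ _, ?_⟩
          by_contra hcon
          exact (hzR s).2 hcon hs.2
        · intro h
          have h3 := h (mem_filter.mpr ⟨mem_univ _, ht.2⟩)
          rw [mem_filter] at h3
          exact hne (h3.2.trans ht.2.symm)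
      exact ih _ (by rw [← hn]; exact card_lt_card hsub) z hz (fun t => (hzR t).1) rfl
  obtain ⟨x, h1, h2, h3⟩ := main _ x0 hx hR rfl
  refine ⟨x, h1, h2, ?_⟩
  intro B hB
  have hsub : B ⊆ univ.filter (fun t => x t = x0 t) := by
    intro t ht
    exact mem_filter.mpr ⟨mem_univ _, hB t ht⟩
  rcases h3 with h | h
  · left
    have := card_le_card hsub
    omega
  · right
    rw [h] at hsub
    exact subset_empty.mp hsub

theorem union_bound {k d : ℕ} (A B : Finset (Fin k)) (q p p' : Fin k → Prop)
    (hq : ∀ D : Finset (Fin k), (∀ a ∈ D, q a) → D.card + 1 ≤ d)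
    (hp : ∀ a b, p a → p b → a = b) (hp' : ∀ a b, p' a → p' b → a = b)
    (hA : ∀ a ∈ A, q a ∨ p a) (hB : ∀ a ∈ B, q a ∨ p' a) : (A ∪ B).card ≤ d + 1 := by
  classical
  have hsub : A ∪ B ⊆ univ.filter q ∪ (univ.filter p ∪ univ.filter p') := by
    intro a ha
    simp only [mem_union, mem_filter, mem_univ, true_and]
    rcases mem_union.mp ha with h | h
    · rcases hA a h with h | h <;> tauto
    · rcases hB a h with h | h <;> tauto
  have h1 := hq (univ.filter q) (fun a ha => (mem_filter.mp ha).2)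
  have h2 : (univ.filter p).card ≤ 1 := card_le_one.mpr (fun a ha b hb =>
    hp a b (mem_filter.mp ha).2 (mem_filter.mp hb).2)
  have h3 : (univ.filter p').card ≤ 1 := card_le_one.mpr (fun a ha b hb =>
    hp' a b (mem_filter.mp ha).2 (mem_filter.mp hb).2)
  have h4 := card_le_card hsub
  have h5 := card_union_le (univ.filter q) (univ.filter p ∪ univ.filter p')
  have h6 := card_union_le (univ.filter p) (univ.filter p')
  omega

/-- Two blocking rectangles for two choices `x`, `y` at `v`: few critical rows were changed. -/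
theorem near_rect {k d : ℕ} (hd : 3 * d ≤ 2 * k) (Q m : Fin k → Fin k → Prop)
    (hm1 : ∀ a c c', m a c → m a c' → c = c') (hm2 : ∀ a a' c, m a c → m a' c → a = a')
    (hr : ∀ t (B : Finset (Fin k)), (∀ c ∈ B, Q t c) → B.card + 1 ≤ d)
    (hc : ∀ c (B : Finset (Fin k)), (∀ t ∈ B, Q t c) → B.card + 1 ≤ d)
    (x y : Fin k → Fin k) (hx : Injective x) (hy : Injective y) {S C S' C' : Finset (Fin k)}
    (hSC : k + 1 ≤ S.card + C.card) (hSC' : k + 1 ≤ S'.card + C'.card)
    (hS : S.card ≤ d) (hC : C.card ≤ d) (hS' : S'.card ≤ d) (hC' : C'.card ≤ d)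
    (hP : ∀ t ∈ S, ∀ c ∈ C, Q t c ∨ m (x t) c)
    (hP' : ∀ t ∈ S', ∀ c ∈ C', Q t c ∨ m (y t) c)
    (T : Finset (Fin k)) (hT : ∀ t ∈ T, t ∈ S ∧ y t ≠ x t ∧ ∃ c ∈ C, m (x t) c ∧ ¬ Q t c) :
    T.card + 2 * k ≤ 4 * d := by
  classical
  have uS : (C ∩ C').Nonempty → (S ∪ S').card ≤ d + 1 := by
    rintro ⟨c, hcc⟩
    rw [mem_inter] at hcc
    exact union_bound S S' (fun t => Q t c) (fun t => m (x t) c) (fun t => m (y t) c) (hc c)
      (fun a b h h' => hx (hm2 _ _ _ h h')) (fun a b h h' => hy (hm2 _ _ _ h h'))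
      (fun t ht => hP t ht c hcc.1) (fun t ht => hP' t ht c hcc.2)
  have uC : (S ∩ S').Nonempty → (C ∪ C').card ≤ d + 1 := by
    rintro ⟨t, htt⟩
    rw [mem_inter] at htt
    exact union_bound C C' (Q t) (m (x t)) (m (y t)) (hr t)
      (fun a b h h' => hm1 _ _ _ h h') (fun a b h h' => hm1 _ _ _ h h')
      (fun c hc => hP t htt.1 c hc) (fun c hc => hP' t htt.2 c hc)
  have iS := card_union_add_card_inter S S'
  have iC := card_union_add_card_inter C C'
  have kS : (S ∪ S').card ≤ k := by simpa using card_le_univ (S ∪ S')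
  have kC : (C ∪ C').card ≤ k := by simpa using card_le_univ (C ∪ C')
  have nS : (S ∩ S').Nonempty := by
    rw [← card_pos]
    by_contra h0
    have : (C ∩ C').Nonempty := card_pos.mp (by omega)
    have := uS this
    omega
  have nC : (C ∩ C').Nonempty := by
    rw [← card_pos]
    by_contra h0
    have := uC nS
    omega
  have hS1 := uS nC
  have hC1 := uC nS
  have e1 : (S \ S').card + S'.card = (S ∪ S').card := by
    rw [card_sdiff_add_card, union_comm]
    try rw [union_comm]
  have e2 : (C \ C').card + C'.card = (C ∪ C').card := by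
    rw [card_sdiff_add_card, union_comm]
    try rw [union_comm]
  have t1 : (T.filter (fun t => t ∉ S')).card ≤ (S \ S').card := card_le_card (fun t ht => by
    rw [mem_filter] at ht
    exact mem_sdiff.mpr ⟨(hT t ht.1).1, ht.2⟩)
  have t2 : (T.filter (fun t => t ∈ S')).card ≤ (C \ C').card := by
    have hex : ∀ t ∈ T.filter (fun t => t ∈ S'), ∃ c ∈ C \ C', m (x t) c := by
      intro t ht
      rw [mem_filter] at ht
      obtain ⟨_, hne, c, hcC, hmc, hQ⟩ := hT t ht.1
      refine ⟨c, mem_sdiff.mpr ⟨hcC, fun hc' => ?_⟩, hmc⟩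
      rcases hP' t ht.2 c hc' with h | h
      · exact hQ h
      · exact hne (hm2 _ _ _ h hmc)
    choose! f hf hf' using hex
    refine card_le_card_of_injOn f (fun t ht => hf t ht) ?_
    intro t ht t' ht' he
    have h1 := hf' t ht
    have h2 := hf' t' ht'
    rw [← he] at h2
    exact hx (hm2 _ _ _ h1 h2)
  have t3 : (T.filter (fun t => t ∈ S')).card + (T.filter (fun t => t ∉ S')).card = T.card :=
    card_filter_add_card_filter_not _
  omega

end Pool.Agent.U269.CP
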