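import Pool.Agent.U269.CP.Lin1
import Pool.Agent.U269.CP.Ext

set_option autoImplicit false

/-!
# Counting critical pairs
-/

namespace Pool.Agent.U269.CP

open Finset Function

variable {V : Type} {k : ℕ}

/-- In a covered set `C` of colours many vertices of `N` are the only ones to cover a colour. -/
theorem crit_row [DecidableEq V] (N : Finset V) (C : Finset (Fin k)) (r : V → Fin k → Prop)
    (hr : ∀ w ∈ N, ∀ c c', r w c → r w c' → c = c') (hcov : ∀ c ∈ C, ∃ w ∈ N, r w c)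
    (K : Finset V)
    (hK : ∀ w ∈ N, (∃ c ∈ C, r w c ∧ ∀ w' ∈ N, w' ≠ w → ¬ r w' c) → w ∈ K) :
    2 * C.card ≤ N.card + K.card := by
  classical
  have h1 : ∑ c ∈ C, (N.filter (fun w => r w c)).card ≤ N.card := by
    have : ∑ c ∈ C, (N.filter (fun w => r w c)).card
        = ∑ w ∈ N, (C.filter (fun c => r w c)).card := by
      simp only [card_filter]
      exact sum_comm
    rw [this]
    calc ∑ w ∈ N, (C.filter (fun c => r w c)).card ≤ ∑ _w ∈ N, 1 := sum_le_sum (fun w hw =>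
          card_le_one.mpr (fun a ha b hb => hr w hw a b (mem_filter.mp ha).2 (mem_filter.mp hb).2))
      _ = N.card := by simp
  have h2 : ∑ c ∈ C, (N.filter (fun w => r w c ∧ ∀ w' ∈ N, w' ≠ w → ¬ r w' c)).card
      ≤ K.card := by
    have : ∑ c ∈ C, (N.filter (fun w => r w c ∧ ∀ w' ∈ N, w' ≠ w → ¬ r w' c)).card
        = ∑ w ∈ N, (C.filter (fun c => r w c ∧ ∀ w' ∈ N, w' ≠ w → ¬ r w' c)).card := by
      simp only [card_filter]
      exact sum_comm
    rw [this]
    calc ∑ w ∈ N, (C.filter (fun c => r w c ∧ ∀ w' ∈ N, w' ≠ w → ¬ r w' c)).card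
        ≤ ∑ w ∈ N, (if w ∈ K then 1 else 0) := by
          refine sum_le_sum (fun w hw => ?_)
          split_ifs with h
          · exact card_le_one.mpr (fun a ha b hb =>
              hr w hw a b (mem_filter.mp ha).2.1 (mem_filter.mp hb).2.1)
          · rw [Nat.le_zero, card_eq_zero, filter_eq_empty_iff]
            intro c hc hcon
            exact h (hK w hw ⟨c, hc, hcon⟩)
      _ = (N.filter (fun w => w ∈ K)).card := by rw [card_filter]
      _ ≤ K.card := card_le_card (fun w hw => (mem_filter.mp hw).2)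
  have h3 : ∀ c ∈ C, 2 ≤ (N.filter (fun w => r w c)).card +
      (N.filter (fun w => r w c ∧ ∀ w' ∈ N, w' ≠ w → ¬ r w' c)).card := by
    intro c hc
    obtain ⟨w, hw, hwc⟩ := hcov c hc
    have hmem : w ∈ N.filter (fun w => r w c) := mem_filter.mpr ⟨hw, hwc⟩
    have hpos : 0 < (N.filter (fun w => r w c)).card := card_pos.mpr ⟨w, hmem⟩
    by_cases h : ∀ w' ∈ N, w' ≠ w → ¬ r w' c
    · have : 0 < (N.filter (fun w => r w c ∧ ∀ w' ∈ N, w' ≠ w → ¬ r w' c)).card :=
        card_pos.mpr ⟨w, mem_filter.mpr ⟨hw, hwc, h⟩⟩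
      omega
    · push Not at h
      obtain ⟨w', hw', hne, hwc'⟩ := h
      have : 1 < (N.filter (fun w => r w c)).card :=
        one_lt_card.mpr ⟨w', mem_filter.mpr ⟨hw', hwc'⟩, w, hmem, hne⟩
      omega
  have h4 := sum_le_sum h3
  rw [sum_add_distrib, sum_const, smul_eq_mul] at h4
  omega

theorem lin_arith {k d h s c R : ℕ} (h1 : k < 2 * d) (h2 : 40 * d < 21 * k)
    (hh : 4 * h ≤ k) (hs : s ≤ d) (hc : c ≤ d) (hsc : k + 1 ≤ s + c) (hR : 10 * R ≤ 3 * k)
    (hcount : 2 * c * s ≤ d * s + (h * s + (d - h) * R)) : False := by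
  have hhd : h ≤ d := by omega
  have hk : 1 ≤ k := by omega
  obtain ⟨e, rfl⟩ : ∃ e, d = h + e := ⟨d - h, by omega⟩
  rw [Nat.add_sub_cancel_left] at hcount
  zify at *
  have a1 : (0 : ℤ) ≤ (h + e) - s := by linarith
  have a2 : (0 : ℤ) ≤ s - (k + 1 - (h + e)) := by linarith
  have a3 := mul_nonneg a1 a2
  -- c ≥ k + 1 - s
  have b1 : 2 * (k + 1 - s) * (s : ℤ) ≤ 2 * c * s := by nlinarith
  have b2 : (e : ℤ) * (10 * R) ≤ e * (3 * k) := mul_le_mul_of_nonneg_left hR (by positivity)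
  -- s (2 (k+1) - 2 s - (d + h)) ≥ d (2 (k+1-d) - d - h)
  have b3 : ((h + e : ℤ)) * (2 * (k + 1 - (h + e)) - (h + e) - h) ≤
      s * (2 * (k + 1) - 2 * s - (h + e) - h) := by
    nlinarith [mul_nonneg a1 (by positivity : (0 : ℤ) ≤ (h + e) + h)]
  have b4 : 10 * (((h + e : ℤ)) * (2 * (k + 1 - (h + e)) - (h + e) - h)) ≤ 3 * k * e := by
    nlinarith
  nlinarith [mul_nonneg (by linarith : (0 : ℤ) ≤ 21 * k - 40 * (h + e)) (by positivity : (0 : ℤ) ≤ (h + e)),
    mul_nonneg (by linarith : (0 : ℤ) ≤ 21 * k - 40 * (h + e)) (by positivity : (0 : ℤ) ≤ (k : ℤ)),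
    mul_nonneg (by linarith : (0 : ℤ) ≤ k - 4 * h) (by linarith : (0 : ℤ) ≤ 10 * (h + e) - 3 * k)]

end Pool.Agent.U269.CP
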