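import Pool.Agent.U269.CP.Max7

set_option autoImplicit false

/-!
# The linear improvement: reducible configuration, discharging and induction
-/

namespace Pool.Agent.U269.CP

open Finset Function

variable {V : Type} {k : ℕ}

theorem lin_arith2 {k d h s c R : ℕ} (h1 : k < 2 * d) (h2 : 100 * d + 12 * h < 55 * k)
    (hhd : h ≤ d) (hs : s ≤ d) (hc : c ≤ d) (hsc : k + 1 ≤ s + c)
    (hR : 4 * R + 3 * k ≤ 8 * d + 4)
    (hcount : 2 * c * s ≤ d * s + (h * s + (d - h) * R)) : False := by
  obtain ⟨e, rfl⟩ : ∃ e, d = h + e := ⟨d - h, by omega⟩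
  rw [Nat.add_sub_cancel_left] at hcount
  zify at *
  have a1 : (0 : ℤ) ≤ (h + e) - s := by linarith
  have a2 : (0 : ℤ) ≤ s - (k + 1 - (h + e)) := by linarith
  have a3 := mul_nonneg a1 a2
  have b1 : 2 * (k + 1 - s) * (s : ℤ) ≤ 2 * c * s := by nlinarith
  have b2 : (e : ℤ) * (4 * R) ≤ e * (8 * (h + e) + 4 - 3 * k) :=
    mul_le_mul_of_nonneg_left (by linarith) (by positivity)
  have b3 : ((h + e : ℤ)) * (2 * (k + 1 - (h + e)) - (h + e) - h) ≤
      s * (2 * (k + 1) - 2 * s - (h + e) - h) := by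
    nlinarith [mul_nonneg a1 (by positivity : (0 : ℤ) ≤ (h + e) + h)]
  have b4 : 4 * (((h + e : ℤ)) * (2 * (k + 1 - (h + e)) - (h + e) - h)) ≤
      e * (8 * (h + e) + 4 - 3 * k) := by
    nlinarith
  have c1 := mul_nonneg (by linarith : (0 : ℤ) ≤ 55 * k - (100 * (h + e) + 12 * h))
    (by linarith : (0 : ℤ) ≤ 3 * k - 4 * (h + e))
  have c2 : (0 : ℤ) < (11 * k - 20 * (h + e)) * (32 * (h + e) - 15 * k) :=
    mul_pos (by linarith) (by linarith)
  nlinarith

/-- A vertex `u` of degree `d` with `h` neighbours of degree more than `5k/8` is reducible if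
`d + 3h/25 < 11k/20`. -/
theorem extend_lin2 [DecidableEq V]
    (G : SimpleGraph V) (M : V → V → Fin k → Fin k → Prop)
    (hsymm : ∀ u v i j, M u v i j → M v u j i)
    (hmat : ∀ u v, G.Adj u v → ∀ i j j', M u v i j → M u v i j' → j = j')
    (W : Finset V) (u : V)
    (hd1 : k < 2 * (nb G (W.erase u) u).card) (H : Finset V) (hH : 100 * (nb G (W.erase u) u).card + 12 * H.card < 55 * k)
    (hlow : ∀ v ∈ nb G (W.erase u) u, v ∉ H →
      8 * ((nb G ((W.erase u).erase v) v).card + 1) ≤ 5 * k)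
    (φ : V → Fin k → Fin k) (hφ : PackOn G M (W.erase u) φ) :
    ∃ ψ, PackOn G M W ψ := by
  by_contra hcon
  push Not at hcon
  have hmat' : ∀ u v, G.Adj u v → ∀ i i' j, M u v i j → M u v i' j → i = i' := by
    intro a b hab i i' j h h'
    exact hmat b a hab.symm _ _ _ (hsymm _ _ _ _ h) (hsymm _ _ _ _ h')
  set N := nb G (W.erase u) u with hN
  set d := N.card with hd
  -- any packing of the rest is blocked at `u`
  have hblk : ∀ ψ : V → Fin k → Fin k, PackOn G M (W.erase u) ψ →
      ∃ S C : Finset (Fin k), k + 1 ≤ S.card + C.card ∧ S.card ≤ d ∧ C.card ≤ d ∧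
        ∀ t ∈ S, ∀ c ∈ C, Fb M ψ u N t c := by
    intro ψ hp
    obtain ⟨S, C, h1, h2⟩ := hall_rect (Fb M ψ u N) (by
      rintro ⟨y, hy, hy'⟩
      exact hcon _ (extend G M hsymm W u _ hp y hy hy'))
    have h3 := rect_card (Fb M ψ u N)
      (fun t B hB => Fb_row M _ u _ (fun w hw => hmat w u (mem_nb.mp hw).2.symm) t B hB)
      (fun c B hB => Fb_col M _ u _ (fun w hw => hmat' w u (mem_nb.mp hw).2.symm)
        (fun w hw => hp.1 w (mem_nb.mp hw).1) c B hB) h1 h2
    exact ⟨S, C, h1, h3.1, h3.2, h2⟩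
  obtain ⟨S, C, hSC, hS, hC, hP⟩ := hblk φ hφ
  -- the critical rows of a neighbour
  classical
  let T : V → Finset (Fin k) := fun w => S.filter (fun t => ∃ c ∈ C, M w u (φ w t) c ∧
    ∀ w' ∈ N, w' ≠ w → ¬ M w' u (φ w' t) c)
  -- each low neighbour has few critical rows
  have hfew : ∀ v ∈ N, v ∉ H → 4 * (T v).card + 3 * k ≤ 8 * d + 4 := by
    intro v hv hvH
    have hvW : v ∈ W.erase u := (mem_nb.mp hv).1
    have huv : G.Adj u v := (mem_nb.mp hv).2
    have hdv := hlow v hv hvH
    set Nv := nb G ((W.erase u).erase v) v with hNv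
    have hNvu : ∀ w ∈ Nv, w ∈ W.erase u ∧ G.Adj v w ∧ w ≠ v := by
      intro w hw
      rw [hNv] at hw
      have := mem_nb.mp hw
      exact ⟨(mem_erase.mp this.1).2, this.2, (mem_erase.mp this.1).1⟩
    have hx0 : Injective (φ v) := hφ.1 v hvW
    have hx0' : ∀ t, ¬ Fb M φ v Nv t (φ v t) := by
      rintro t ⟨w, hw, hM⟩
      exact hφ.2 w (hNvu w hw).1 v hvW (hNvu w hw).2.1.symm t hM
    obtain ⟨x, hx, hx', hag⟩ := few_agree (δ := k - (Nv.card + 1))
      (fun t c => ¬ Fb M φ v Nv t c) (φ v) hx0 hx0'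
      (fun t => by
        obtain ⟨B, h1, h2⟩ := compl_ge (fun c => Fb M φ v Nv t c) (fun B hB =>
          (Fb_row M φ v Nv (fun w hw => hmat w v (hNvu w hw).2.1.symm) t B hB))
        exact ⟨B, h1, by omega⟩)
      (fun c => by
        obtain ⟨B, h1, h2⟩ := compl_ge (fun t => Fb M φ v Nv t c) (fun B hB =>
          (Fb_col M φ v Nv (fun w hw => hmat' w v (hNvu w hw).2.1.symm)
            (fun w hw => hφ.1 w (hNvu w hw).1) c B hB))
        exact ⟨B, h1, by omega⟩)
      (by omega)
    have hp : PackOn G M (W.erase u) (Function.update φ v x) := by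
      refine extend G M hsymm (W.erase u) v φ ?_ x hx hx'
      exact ⟨fun a ha => hφ.1 a (mem_erase.mp ha).2, fun a ha b hb =>
        hφ.2 a (mem_erase.mp ha).2 b (mem_erase.mp hb).2⟩
    obtain ⟨S', C', hSC', hS', hC', hP'⟩ := hblk _ hp
    set N' := N.erase v with hN'
    have hN'u : ∀ w ∈ N', w ∈ W.erase u ∧ G.Adj u w ∧ w ≠ v := by
      intro w hw
      rw [hN', mem_erase] at hw
      exact ⟨(mem_nb.mp hw.2).1, (mem_nb.mp hw.2).2, hw.1⟩
    have hN'c : N'.card + 1 = d := card_erase_add_one hv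
    have hnear := near_rect' (d := d) (by omega) (Fb M φ u N') (fun a c => M v u a c)
      (fun a c c' h h' => hmat v u huv.symm a c c' h h')
      (fun a a' c h h' => hmat' v u huv.symm a a' c h h')
      (fun t B hB => by
        have := Fb_row M φ u N' (fun w hw => hmat w u (hN'u w hw).2.1.symm) t B hB
        omega)
      (fun c B hB => by
        have := Fb_col M φ u N' (fun w hw => hmat' w u (hN'u w hw).2.1.symm)
          (fun w hw => hφ.1 w (hN'u w hw).1) c B hB
        omega)
      (φ v) x hx0 hx hSC hSC' hS hC hS' hC'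
      (fun t ht c hc => by
        obtain ⟨w, hw, hM⟩ := hP t ht c hc
        by_cases hwv : w = v
        · subst hwv
          exact Or.inr hM
        · exact Or.inl ⟨w, mem_erase.mpr ⟨hwv, hw⟩, hM⟩)
      (fun t ht c hc => by
        obtain ⟨w, hw, hM⟩ := hP' t ht c hc
        by_cases hwv : w = v
        · subst hwv
          rw [Function.update_self] at hM
          exact Or.inr hM
        · rw [Function.update_of_ne hwv] at hM
          exact Or.inl ⟨w, mem_erase.mpr ⟨hwv, hw⟩, hM⟩)
      ((T v).filter (fun t => x t ≠ φ v t))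
      (fun t ht => by
        rw [mem_filter, mem_filter] at ht
        obtain ⟨⟨htS, c, hcC, hMc, huniq⟩, hne⟩ := ht
        refine ⟨htS, hne, c, hcC, hMc, ?_⟩
        rintro ⟨w, hw, hM⟩
        exact huniq w (mem_erase.mp hw).2 (mem_erase.mp hw).1 hM)
    have h3 : ((T v).filter (fun t => x t = φ v t)).card +
        ((T v).filter (fun t => x t ≠ φ v t)).card = (T v).card :=
      card_filter_add_card_filter_not _
    rcases hag ((T v).filter (fun t => x t = φ v t)) (fun t ht => (mem_filter.mp ht).2) with h | h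
    · omega
    · rw [h, card_empty] at h3
      omega
  -- counting
  have hrow : ∀ t ∈ S, 2 * C.card ≤ d + (N.filter (fun w => t ∈ T w)).card := by
    intro t ht
    refine crit_row N C (fun w c => M w u (φ w t) c)
      (fun w hw c c' h h' => hmat w u (mem_nb.mp hw).2.symm _ _ _ h h')
      (fun c hc => hP t ht c hc) _ ?_
    intro w hw hex
    exact mem_filter.mpr ⟨hw, mem_filter.mpr ⟨ht, hex⟩⟩
  have hsum := sum_le_sum hrow
  rw [sum_add_distrib, sum_const, sum_const, smul_eq_mul, smul_eq_mul] at hsum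
  have hswap : ∑ t ∈ S, (N.filter (fun w => t ∈ T w)).card = ∑ w ∈ N, (T w).card := by
    have : ∀ w ∈ N, (T w).card = (S.filter (fun t => t ∈ T w)).card := by
      intro w _
      congr 1
      ext t
      exact ⟨fun h => mem_filter.mpr ⟨(mem_filter.mp h).1, h⟩, fun h => (mem_filter.mp h).2⟩
    rw [sum_congr rfl this]
    simp only [card_filter]
    exact sum_comm
  have hTS : ∀ w, (T w).card ≤ S.card := fun w => card_le_card (filter_subset _ _)
  have hsplit : ∑ w ∈ N, (T w).card ≤
      (N.filter (fun w => w ∈ H)).card * S.card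
        + (N.filter (fun w => w ∉ H)).card * ((8 * d + 4 - 3 * k) / 4) := by
    rw [← sum_filter_add_sum_filter_not N (fun w => w ∈ H)]
    apply Nat.add_le_add
    · calc ∑ w ∈ N.filter (fun w => w ∈ H), (T w).card
          ≤ ∑ _w ∈ N.filter (fun w => w ∈ H), S.card := sum_le_sum (fun w _ => hTS w)
        _ = _ := by rw [sum_const, smul_eq_mul]
    · calc ∑ w ∈ N.filter (fun w => w ∉ H), (T w).card
          ≤ ∑ _w ∈ N.filter (fun w => w ∉ H), ((8 * d + 4 - 3 * k) / 4) := sum_le_sum (fun w hw => by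
            rw [mem_filter] at hw
            have := hfew w hw.1 hw.2
            omega)
        _ = _ := by rw [sum_const, smul_eq_mul]
  have hcardH : (N.filter (fun w => w ∈ H)).card ≤ H.card :=
    card_le_card (fun w hw => (mem_filter.mp hw).2)
  have hcardN : (N.filter (fun w => w ∈ H)).card + (N.filter (fun w => w ∉ H)).card = d :=
    card_filter_add_card_filter_not _
  refine lin_arith2 (k := k) (d := d) (h := (N.filter (fun w => w ∈ H)).card) (s := S.card)
    (c := C.card) (R := (8 * d + 4 - 3 * k) / 4) hd1 (by omega) (by omega) hS hC hSC (by omega) ?_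
  have e1 : d - (N.filter (fun w => w ∈ H)).card = (N.filter (fun w => w ∉ H)).card := by omega
  rw [e1]
  nlinarith

theorem exists_config_lin2 (G : SimpleGraph V) (W : Finset V)
    (hs : 20 * ∑ v ∈ W, (nb G W v).card < 11 * k * W.card) :
    (∃ v ∈ W, 2 * (nb G W v).card ≤ k) ∨
      ∃ u ∈ W, k < 2 * (nb G W u).card ∧ ∃ H : Finset V,
        100 * (nb G W u).card + 12 * H.card < 55 * k ∧
          ∀ v ∈ nb G W u, v ∉ H → 8 * (nb G W v).card ≤ 5 * k := by
  classical
  by_contra hcon
  push Not at hcon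
  obtain ⟨h1, h2⟩ := hcon
  set Lo := W.filter (fun v => ¬ 5 * k < 8 * (nb G W v).card) with hLo
  set Hi := W.filter (fun v => 5 * k < 8 * (nb G W v).card) with hHi
  have hdc : ∑ u ∈ Lo, (nb G Hi u).card = ∑ v ∈ Hi, (nb G Lo v).card := by
    simp only [nb_card]
    rw [sum_comm]
    refine sum_congr rfl (fun v _ => sum_congr rfl (fun u _ => ?_))
    simp only [G.adj_comm]
  have hpt : ∀ v ∈ W, 55 * k + 12 * (if 5 * k < 8 * (nb G W v).card then
        (nb G Lo v).card else 0) ≤
      100 * (nb G W v).card + 12 * (if ¬ 5 * k < 8 * (nb G W v).card then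
        (nb G Hi v).card else 0) := by
    intro v hv
    have hle : (nb G Lo v).card ≤ (nb G W v).card := card_le_card (fun w hw => by
      rw [mem_nb] at hw ⊢
      exact ⟨(mem_filter.mp (hLo ▸ hw.1)).1, hw.2⟩)
    by_cases hhi : 5 * k < 8 * (nb G W v).card
    · rw [if_pos hhi, if_neg (not_not.mpr hhi)]
      omega
    · rw [if_neg hhi, if_pos hhi]
      by_contra hcon
      obtain ⟨w, hw, hwH, hw5⟩ := h2 v hv (h1 v hv) (nb G Hi v) (by omega)
      exact hwH (mem_nb.mpr ⟨mem_filter.mpr ⟨(mem_nb.mp hw).1, hw5⟩, (mem_nb.mp hw).2⟩)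
  have hsum := sum_le_sum hpt
  rw [sum_add_distrib, sum_add_distrib, sum_const, smul_eq_mul, ← mul_sum, ← mul_sum, ← mul_sum,
    ← sum_filter, ← sum_filter, ← hLo, ← hHi, hdc] at hsum
  have e : W.card * (55 * k) = 5 * (11 * k * W.card) := by ring
  rw [e] at hsum
  omega

theorem pack_all_lin2
    (G : SimpleGraph V) (M : V → V → Fin k → Fin k → Prop)
    (hsymm : ∀ u v i j, M u v i j → M v u j i)
    (hmat : ∀ u v, G.Adj u v → ∀ i j j', M u v i j → M u v i j' → j = j')
    (hs : ∀ W : Finset V, W.Nonempty → 20 * ∑ v ∈ W, (nb G W v).card < 11 * k * W.card) :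
    ∀ n, ∀ W : Finset V, W.card = n → ∃ φ, PackOn G M W φ := by
  classical
  intro n
  induction n with
  | zero =>
    intro W hW
    rw [card_eq_zero] at hW
    subst hW
    exact ⟨fun _ => id, by simp, by simp⟩
  | succ n ih =>
    intro W hW
    have hne : W.Nonempty := card_pos.mp (by omega)
    have hnb : ∀ v, nb G (W.erase v) v = nb G W v := by
      intro v
      ext w
      rw [mem_nb, mem_nb, mem_erase]
      exact ⟨fun h => ⟨h.1.2, h.2⟩, fun h => ⟨⟨h.2.ne.symm, h.1⟩, h.2⟩⟩
    rcases exists_config_lin2 G W (hs W hne) with ⟨v, hv, hd⟩ | ⟨u, hu, hd1, H, hH, hlow⟩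
    · obtain ⟨φ, hφ⟩ := ih (W.erase v) (by rw [card_erase_of_mem hv]; omega)
      exact extend_small G M hsymm hmat W v (by rw [hnb]; omega) φ hφ
    · obtain ⟨φ, hφ⟩ := ih (W.erase u) (by rw [card_erase_of_mem hu]; omega)
      refine extend_lin2 G M hsymm hmat W u (by rw [hnb]; exact hd1) H
        (by rw [hnb]; exact hH) ?_ φ hφ
      intro v hv hvH
      rw [hnb] at hv
      have h0 := hlow v hv hvH
      have : nb G ((W.erase u).erase v) v ⊆ (nb G W v).erase u := by
        intro w hw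
        rw [mem_nb, mem_erase, mem_erase] at hw
        rw [mem_erase, mem_nb]
        exact ⟨hw.1.2.1, hw.1.2.2, hw.2⟩
      have h1 := card_le_card this
      have h2 := card_erase_add_one (mem_nb.mpr ⟨hu, (mem_nb.mp hv).2.symm⟩ : u ∈ nb G W v)
      omega

end Pool.Agent.U269.CP
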