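import Pool.Agent.U269.CP.Mad
import Pool.Agent.U269.CP.Lin6

set_option autoImplicit false

/-!
# The linear improvement with constant `11/20`
-/

namespace Pool.Agent.U269.CP

open Finset Function Pool.Agent.TH455

theorem corrPackable_lin2 {V : Type} [Fintype V] (G : SimpleGraph V) {k : ℕ} {m : ℝ}
    (hm : 20 * m ≤ 11 * k) (h : MadLT G m) : CorrPackable G k := by
  intro C
  obtain ⟨φ, h1, h2⟩ := pack_all_lin2 G C.M C.symm C.matching
    (fun W hW => by
      have := sum_nb_lt G _ h W hW
      have h3 : (20 : ℝ) * ((∑ v ∈ W, (nb G W v).card : ℕ) : ℝ) < 11 * k * W.card := by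
        have h4 : (20 * m) * (W.card : ℝ) ≤ (11 * k) * W.card :=
          mul_le_mul_of_nonneg_right hm (by positivity)
        linarith
      exact_mod_cast h3) _ univ rfl
  exact ⟨fun t v => φ v t, fun t u v huv => h2 u (mem_univ _) v (mem_univ _) huv t,
    fun v s t hst he => hst (h1 v (mem_univ _) he)⟩

end Pool.Agent.U269.CP
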