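import Pool.Agent.TH455.Mad
import Pool.Agent.U269.CP.Dis

set_option autoImplicit false

/-!
# From the maximum average degree to degree sums
-/

namespace Pool.Agent.U269.CP

open Finset Function Pool.Agent.TH455

theorem sum_nb {V : Type} (G : SimpleGraph V) (W : Finset V) :
    ∑ v ∈ W, (nb G W v).card = 2 * (eIn G W).card := by
  classical
  rw [← I2_eq_edges]
  unfold I2 gi
  refine sum_congr rfl (fun v _ => ?_)
  rw [nb_card]
  exact sum_congr rfl (fun w _ => (ind_ite _).symm)

theorem sum_nb_lt {V : Type} [Fintype V] (G : SimpleGraph V) (a : ℝ) (h : MadLT G a)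
    (W : Finset V) (hW : W.Nonempty) :
    ((∑ v ∈ W, (nb G W v).card : ℕ) : ℝ) < a * W.card := by
  classical
  have h1 := h ((⊤ : G.Subgraph).induce (W : Set V)) hW.to_set
  rw [induce_edges, Set.ncard_coe_finset] at h1
  have h2 : ((⊤ : G.Subgraph).induce (W : Set V)).verts = (W : Set V) := rfl
  rw [h2, Set.ncard_coe_finset] at h1
  rw [sum_nb]
  push_cast
  exact h1

theorem corrPackable_odd {V : Type} [Fintype V] (G : SimpleGraph V) {j : ℕ} (hj : 4 ≤ j)
    (h : MadLT G (j + 1)) : CorrPackable G (2 * j - 1) := by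
  intro C
  obtain ⟨φ, h1, h2⟩ := pack_all (k := 2 * j - 1) (j := j) (by omega) hj G C.M C.symm C.matching
    (fun W hW => by
      have := sum_nb_lt G _ h W hW
      exact_mod_cast this) _ univ rfl
  exact ⟨fun t v => φ v t, fun t u v huv => h2 u (mem_univ _) v (mem_univ _) huv t,
    fun v s t hst he => hst (h1 v (mem_univ _) he)⟩

end Pool.Agent.U269.CP
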