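import Mathlib

set_option autoImplicit false

/-!
# Perfect matchings of dense bipartite graphs on `Fin k × Fin k`
-/

namespace Pool.Agent.U269.CP

open Finset Function

/-- If no injective choice avoids `P`, there is a large forbidden rectangle. -/
theorem hall_rect {k : ℕ} (P : Fin k → Fin k → Prop)
    (h : ¬ ∃ y : Fin k → Fin k, Injective y ∧ ∀ t, ¬ P t (y t)) :
    ∃ S C : Finset (Fin k), k + 1 ≤ S.card + C.card ∧ ∀ t ∈ S, ∀ c ∈ C, P t c := by
  classical
  have h1 := (Finset.all_card_le_biUnion_card_iff_exists_injective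
    (fun t : Fin k => univ.filter (fun c => ¬ P t c))).not.mpr (by
      rintro ⟨f, hf, hf'⟩
      exact h ⟨f, hf, fun t => (mem_filter.mp (hf' t)).2⟩)
  push Not at h1
  obtain ⟨S, hS⟩ := h1
  refine ⟨S, (S.biUnion (fun t : Fin k => univ.filter (fun c => ¬ P t c)))ᶜ, ?_, ?_⟩
  · rw [card_compl, Fintype.card_fin]
    have := card_le_univ (S.biUnion (fun t : Fin k => univ.filter (fun c => ¬ P t c)))
    rw [Fintype.card_fin] at this
    omega
  · intro t ht c hc
    by_contra hP
    rw [mem_compl, mem_biUnion] at hc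
    exact hc ⟨t, ht, mem_filter.mpr ⟨mem_univ _, hP⟩⟩

theorem rect_card {k d : ℕ} (P : Fin k → Fin k → Prop)
    (hr : ∀ t (B : Finset (Fin k)), (∀ c ∈ B, P t c) → B.card ≤ d)
    (hc : ∀ c (B : Finset (Fin k)), (∀ t ∈ B, P t c) → B.card ≤ d)
    {S C : Finset (Fin k)}
    (h : k + 1 ≤ S.card + C.card) (hP : ∀ t ∈ S, ∀ c ∈ C, P t c) :
    S.card ≤ d ∧ C.card ≤ d := by
  have h1 : S.card ≤ k := by simpa using card_le_univ S
  have h2 : C.card ≤ k := by simpa using card_le_univ C
  have h3 : S.Nonempty := card_pos.mp (by omega)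
  have h4 : C.Nonempty := card_pos.mp (by omega)
  obtain ⟨s, hs⟩ := h3
  obtain ⟨c, hc'⟩ := h4
  exact ⟨hc c S (fun t ht => hP t ht c hc'), hr s C (fun c hc => hP s hs c hc)⟩

theorem row_rigid {k j : ℕ} (C : Finset (Fin k)) (q : Fin k → Prop)
    (hC : C.card = j) (hB : ∀ B : Finset (Fin k), (∀ c ∈ B, q c) → B.card + 1 ≤ j)
    (h1 : ∀ c ∈ C, ∀ c' ∈ C, ¬ q c → ¬ q c' → c = c') :
    (∀ c, q c → c ∈ C) ∧ (∃ c ∈ C, ¬ q c) ∧ ∃ B : Finset (Fin k), (∀ c ∈ B, q c) ∧
      B.card + 1 = j := by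
  classical
  have e : (C.filter q).card + (C.filter (fun c => ¬ q c)).card = C.card :=
    card_filter_add_card_filter_not _
  have h2 : (C.filter (fun c => ¬ q c)).card ≤ 1 := by
    rw [card_le_one]
    intro a ha b hb
    rw [mem_filter] at ha hb
    exact h1 a ha.1 b hb.1 ha.2 hb.2
  have h3 := hB (C.filter q) (fun c hc => (mem_filter.mp hc).2)
  refine ⟨?_, ?_, C.filter q, fun c hc => (mem_filter.mp hc).2, by omega⟩
  · intro c hc
    by_contra hcC
    have h4 := hB (insert c (C.filter q)) (by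
      intro a ha
      rw [mem_insert] at ha
      rcases ha with rfl | ha
      · exact hc
      · exact (mem_filter.mp ha).2)
    rw [card_insert_of_notMem (fun h => hcC (mem_filter.mp h).1)] at h4
    omega
  · have h5 : 0 < (C.filter (fun c => ¬ q c)).card := by omega
    obtain ⟨c, hc⟩ := card_pos.mp h5
    exact ⟨c, (mem_filter.mp hc).1, (mem_filter.mp hc).2⟩

/-- Two blocked choices at `v` agree on the blocking set of indices. -/
theorem rigid {k j : ℕ} (hk : k + 1 = 2 * j) (hj : 3 ≤ j) (Q m : Fin k → Fin k → Prop)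
    (hm1 : ∀ a c c', m a c → m a c' → c = c') (hm2 : ∀ a a' c, m a c → m a' c → a = a')
    (hr : ∀ t (B : Finset (Fin k)), (∀ c ∈ B, Q t c) → B.card + 1 ≤ j)
    (hc : ∀ c (B : Finset (Fin k)), (∀ t ∈ B, Q t c) → B.card + 1 ≤ j)
    (x y : Fin k → Fin k) (hx : Injective x) (hy : Injective y) {S C S' C' : Finset (Fin k)}
    (hS : S.card = j) (hC : C.card = j) (hS' : S'.card = j) (hC' : C'.card = j)
    (hP : ∀ t ∈ S, ∀ c ∈ C, Q t c ∨ m (x t) c)
    (hP' : ∀ t ∈ S', ∀ c ∈ C', Q t c ∨ m (y t) c) :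
    ∀ t ∈ S, x t = y t := by
  classical
  have row : ∀ (z : Fin k → Fin k) (A B : Finset (Fin k)), B.card = j →
      (∀ t ∈ A, ∀ c ∈ B, Q t c ∨ m (z t) c) → ∀ t ∈ A,
      (∀ c, Q t c → c ∈ B) ∧ (∃ c ∈ B, ¬ Q t c) ∧ ∃ B : Finset (Fin k), (∀ c ∈ B, Q t c) ∧
      B.card + 1 = j := by
    intro z A B hB hAB t ht
    refine row_rigid B (Q t) hB (hr t) ?_
    intro c hc1 c' hc2 h1 h2
    exact hm1 _ _ _ ((hAB t ht c hc1).resolve_left h1) ((hAB t ht c' hc2).resolve_left h2)
  have col : ∀ (z : Fin k → Fin k), Injective z → ∀ (A B : Finset (Fin k)), A.card = j →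
      (∀ t ∈ A, ∀ c ∈ B, Q t c ∨ m (z t) c) → ∀ c ∈ B,
      (∀ t, Q t c → t ∈ A) := by
    intro z hz A B hA hAB c hcB
    refine (row_rigid A (fun t => Q t c) hA (hc c) ?_).1
    intro t ht t' ht' h1 h2
    exact hz (hm2 _ _ _ ((hAB t ht c hcB).resolve_left h1) ((hAB t' ht' c hcB).resolve_left h2))
  -- a common index
  have hne : (S ∩ S').Nonempty := by
    rw [← card_pos]
    have h1 := card_union_add_card_inter S S'
    have h2 : (S ∪ S').card ≤ k := by simpa using card_le_univ (S ∪ S')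
    omega
  obtain ⟨t0, ht0⟩ := hne
  rw [mem_inter] at ht0
  obtain ⟨r1, _, B, hB, hBc⟩ := row x S C hC hP t0 ht0.1
  obtain ⟨r1', _, _⟩ := row y S' C' hC' hP' t0 ht0.2
  obtain ⟨c, hcB, c', hcB', hcc⟩ := one_lt_card.mp (show 1 < B.card by omega)
  have e1 : S = S' := by
    have g : ∀ (z : Fin k → Fin k), Injective z → ∀ (A D : Finset (Fin k)), A.card = j →
      (∀ t ∈ A, ∀ c ∈ D, Q t c ∨ m (z t) c) → c ∈ D → c' ∈ D →
      ∀ s, s ∈ A ↔ (Q s c ∨ Q s c') := by
      intro z hz A D hA hAD h1 h2 s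
      constructor
      · intro hs
        by_contra hcon
        push Not at hcon
        exact hcc (hm1 _ _ _ ((hAD s hs c h1).resolve_left hcon.1)
          ((hAD s hs c' h2).resolve_left hcon.2))
      · rintro (h | h)
        · exact col z hz A D hA hAD c h1 s h
        · exact col z hz A D hA hAD c' h2 s h
    ext s
    rw [g x hx S C hS hP (r1 c (hB c hcB)) (r1 c' (hB c' hcB')) s,
      g y hy S' C' hS' hP' (r1' c (hB c hcB)) (r1' c' (hB c' hcB')) s]
  subst e1
  intro t ht
  obtain ⟨t', ht', htt⟩ := exists_mem_ne (show 1 < S.card by omega) t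
  have e2 : C = C' := by
    have g : ∀ (z : Fin k → Fin k), Injective z → ∀ (D : Finset (Fin k)), D.card = j →
      (∀ t ∈ S, ∀ c ∈ D, Q t c ∨ m (z t) c) →
      ∀ s, s ∈ D ↔ (Q t s ∨ Q t' s) := by
      intro z hz D hD hAD s
      constructor
      · intro hs
        by_contra hcon
        push Not at hcon
        exact htt (hz (hm2 _ _ _ ((hAD t' ht' s hs).resolve_left hcon.2)
          ((hAD t ht s hs).resolve_left hcon.1)))
      · rintro (h | h)
        · exact (row z S D hD hAD t ht).1 s h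
        · exact (row z S D hD hAD t' ht').1 s h
    ext s
    rw [g x hx C hC hP s, g y hy C' hC' hP' s]
  subst e2
  obtain ⟨_, ⟨d, hd, hd'⟩, _⟩ := row x S C hC hP t ht
  exact hm2 _ _ _ ((hP t ht d hd).resolve_left hd') ((hP' t ht d hd).resolve_left hd')

/-- A second perfect matching which differs from a given one inside `S`. -/
theorem two_matchings {k δ : ℕ} (R : Fin k → Fin k → Prop) (x0 : Fin k → Fin k)
    (hx : Injective x0) (hR : ∀ t, R t (x0 t))
    (hr : ∀ t, ∃ B : Finset (Fin k), (∀ c ∈ B, R t c) ∧ δ ≤ B.card)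
    (hc : ∀ c, ∃ B : Finset (Fin k), (∀ t ∈ B, R t c) ∧ δ ≤ B.card)
    (hδ : 2 ≤ δ) (S : Finset (Fin k)) (hSn : S.Nonempty) (hS : k < S.card + 2 * δ) :
    ∃ x : Fin k → Fin k, Injective x ∧ (∀ t, R t (x t)) ∧ ∃ t ∈ S, x t ≠ x0 t := by
  classical
  by_contra hcon
  push Not at hcon
  have hsur : Surjective x0 := Finite.injective_iff_surjective.mp hx
  let Cl : Finset (Fin k) → Prop := fun A => ∀ t ∈ A, ∀ t', R t (x0 t') → t' ∈ A
  have claim : ∀ t t', t ≠ t' → R t (x0 t') → (t ∈ S ∨ t' ∈ S) →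
      ∃ A, Cl A ∧ t' ∈ A ∧ t ∉ A := by
    intro t t' htt hRt hSS
    obtain ⟨T, C, hTC, hP⟩ := hall_rect (fun a c => ¬ (R a c ∧ (a = t ↔ c = x0 t'))) (by
      rintro ⟨y, hy, hy'⟩
      have hy2 : ∀ a, R a (y a) ∧ (a = t ↔ y a = x0 t') := fun a => not_not.mp (hy' a)
      have h1 := hcon y hy (fun a => (hy2 a).1)
      have h2 : y t = x0 t' := (hy2 t).2.mp rfl
      rcases hSS with h | h
      · exact htt (hx ((h1 t h).symm.trans h2))
      · exact htt (hy (h2.trans (h1 t' h).symm)))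
    have hfree : ∀ a ∈ T.erase t, ∀ c ∈ C.erase (x0 t'), ¬ R a c := by
      intro a ha c hc hRac
      rw [mem_erase] at ha hc
      exact hP a ha.2 c hc.2 ⟨hRac, iff_of_false ha.1 hc.1⟩
    have hcard : k ≤ (T.erase t).card + (C.erase (x0 t')).card := by
      by_cases h1 : t ∈ T
      · have h2 : x0 t' ∉ C := by
          intro h2
          exact hP t h1 _ h2 ⟨hRt, iff_of_true rfl rfl⟩
        rw [erase_eq_of_notMem h2]
        have := card_erase_add_one h1
        omega
      · rw [erase_eq_of_notMem h1]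
        have : C.card - 1 ≤ (C.erase (x0 t')).card := pred_card_le_card_erase
        omega
    have key : ∀ b, x0 b ∉ C.erase (x0 t') → b ∈ T.erase t := by
      intro b hb
      by_contra hbT
      have hd : Disjoint ((insert b (T.erase t)).image x0) (C.erase (x0 t')) := by
        rw [disjoint_left]
        intro c hc hc'
        rw [mem_image] at hc
        obtain ⟨a, ha, rfl⟩ := hc
        rw [mem_insert] at ha
        rcases ha with rfl | ha
        · exact hb hc'
        · exact hfree a ha _ hc' (hR a)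
      have h1 := card_union_of_disjoint hd
      have h2 : (((insert b (T.erase t)).image x0) ∪ (C.erase (x0 t'))).card ≤ k := by
        simpa using card_le_univ (((insert b (T.erase t)).image x0) ∪ (C.erase (x0 t')))
      rw [card_image_of_injective _ hx, card_insert_of_notMem hbT] at h1
      omega
    refine ⟨T.erase t, ?_, ?_, ?_⟩
    · intro a ha b hab
      exact key b (fun h => hfree a ha _ h hab)
    · exact key t' (by simp)
    · simp
  have hun : (univ.filter (fun A : Finset (Fin k) => A.Nonempty ∧ Cl A)).Nonempty := by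
    refine ⟨univ, mem_filter.mpr ⟨mem_univ _, ?_, ?_⟩⟩
    · obtain ⟨s, _⟩ := hSn
      exact ⟨s, mem_univ _⟩
    · intro _ _ _ _
      exact mem_univ _
  obtain ⟨A, hA, hAmin⟩ := exists_min_image _ (fun A => A.card) hun
  rw [mem_filter] at hA
  obtain ⟨_, hAne, hAcl⟩ := hA
  have hAS : ∀ s ∈ S, s ∉ A := by
    intro s hs hsA
    obtain ⟨B, hB, hBc⟩ := hr s
    obtain ⟨c, hcB, hcs⟩ := exists_mem_ne (show 1 < B.card by omega) (x0 s)
    obtain ⟨t', rfl⟩ := hsur c
    have hne : s ≠ t' := fun h => hcs (by rw [h])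
    obtain ⟨A₁, h1, h2, h3⟩ := claim s t' hne (hB _ hcB) (Or.inl hs)
    have h4 := hAmin (A ∩ A₁) (mem_filter.mpr ⟨mem_univ _,
      ⟨t', mem_inter.mpr ⟨hAcl s hsA t' (hB _ hcB), h2⟩⟩, fun t ht t' hR' =>
        mem_inter.mpr ⟨hAcl t (mem_inter.mp ht).1 t' hR', h1 t (mem_inter.mp ht).2 t' hR'⟩⟩)
    have h5 : (A ∩ A₁).card < A.card := card_lt_card
      ⟨inter_subset_left, fun h => h3 (mem_inter.mp (h hsA)).2⟩
    omega
  have hAδ : δ ≤ A.card := by
    obtain ⟨a, ha⟩ := hAne
    obtain ⟨B, hB, hBc⟩ := hr a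
    have : B ⊆ A.image x0 := by
      intro c hc
      obtain ⟨t', rfl⟩ := hsur c
      exact mem_image_of_mem _ (hAcl a ha t' (hB _ hc))
    calc δ ≤ B.card := hBc
      _ ≤ (A.image x0).card := card_le_card this
      _ ≤ A.card := card_image_le
  have hun2 : (univ.filter (fun B : Finset (Fin k) => (A ⊆ B ∧ B ≠ univ) ∧ Cl B)).Nonempty := by
    refine ⟨A, mem_filter.mpr ⟨mem_univ _, ⟨Subset.refl _, ?_⟩, hAcl⟩⟩
    rintro rfl
    obtain ⟨s, hs⟩ := hSn
    exact hAS s hs (mem_univ _)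
  obtain ⟨B, hB, hBmax⟩ := exists_max_image _ (fun A => A.card) hun2
  rw [mem_filter] at hB
  obtain ⟨_, ⟨hAB, hBne⟩, hBcl⟩ := hB
  have hBS : ∀ s ∈ S, s ∈ B := by
    intro s hs
    by_contra hsB
    obtain ⟨D, hD, hDc⟩ := hc (x0 s)
    obtain ⟨t, htD, hts⟩ := exists_mem_ne (show 1 < D.card by omega) s
    have htB : t ∉ B := fun h => hsB (hBcl t h s (hD t htD))
    obtain ⟨A₂, h1, h2, h3⟩ := claim t s hts (hD t htD) (Or.inr hs)
    have h4 := hBmax (B ∪ A₂) (mem_filter.mpr ⟨mem_univ _,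
      ⟨hAB.trans subset_union_left, fun h => by
        have : t ∈ B ∪ A₂ := by rw [h]; exact mem_univ _
        rcases mem_union.mp this with h | h
        · exact htB h
        · exact h3 h⟩, fun t ht t' hR' => by
        rcases mem_union.mp ht with h | h
        · exact mem_union_left _ (hBcl t h t' hR')
        · exact mem_union_right _ (h1 t h t' hR')⟩)
    have h5 : B.card < (B ∪ A₂).card := card_lt_card
      ⟨subset_union_left, fun h => hsB (h (mem_union_right _ h2))⟩
    omega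
  have hBδ : δ ≤ (Bᶜ).card := by
    have : ∃ b, b ∉ B := by
      by_contra hh
      push Not at hh
      exact hBne (eq_univ_iff_forall.mpr hh)
    obtain ⟨b, hb⟩ := this
    obtain ⟨D, hD, hDc⟩ := hc (x0 b)
    have : D ⊆ Bᶜ := by
      intro t ht
      rw [mem_compl]
      exact fun h => hb (hBcl t h b (hD t ht))
    exact hDc.trans (card_le_card this)
  have d1 : Disjoint A Bᶜ := by
    rw [disjoint_left]
    intro a ha hb
    exact (mem_compl.mp hb) (hAB ha)
  have d2 : Disjoint S (A ∪ Bᶜ) := by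
    rw [disjoint_left]
    intro s hs h
    rcases mem_union.mp h with h | h
    · exact hAS s hs h
    · exact (mem_compl.mp h) (hBS s hs)
  have c1 := card_union_of_disjoint d1
  have c2 := card_union_of_disjoint d2
  have c3 : (S ∪ (A ∪ Bᶜ)).card ≤ k := by simpa using card_le_univ (S ∪ (A ∪ Bᶜ))
  omega

end Pool.Agent.U269.CP
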