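import Pool.Agent.U269.CP.Lin2
import Pool.Agent.U269.CP.Dis

set_option autoImplicit false

/-!
# Correspondence packing and the maximum degree
-/

namespace Pool.Agent.U269.CP

open Finset Function

variable {V : Type} {k : ℕ}

/-- Two blocking rectangles for two choices `x`, `y` at `v`: few critical rows were changed. -/
theorem near_rect' {k d : ℕ} (hd : 3 * d ≤ 2 * k) (Q m : Fin k → Fin k → Prop)
    (hm1 : ∀ a c c', m a c → m a c' → c = c') (hm2 : ∀ a a' c, m a c → m a' c → a = a')
    (hr : ∀ t (B : Finset (Fin k)), (∀ c ∈ B, Q t c) → B.card + 1 ≤ d)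
    (hc : ∀ c (B : Finset (Fin k)), (∀ t ∈ B, Q t c) → B.card + 1 ≤ d)
    (x y : Fin k → Fin k) (hx : Injective x) (hy : Injective y) {S C S' C' : Finset (Fin k)}
    (hSC : k + 1 ≤ S.card + C.card) (hSC' : k + 1 ≤ S'.card + C'.card)
    (hS : S.card ≤ d) (hC : C.card ≤ d) (hS' : S'.card ≤ d) (hC' : C'.card ≤ d)
    (hP : ∀ t ∈ S, ∀ c ∈ C, Q t c ∨ m (x t) c)
    (hP' : ∀ t ∈ S', ∀ c ∈ C', Q t c ∨ m (y t) c)
    (T : Finset (Fin k)) (hT : ∀ t ∈ T, t ∈ S ∧ y t ≠ x t ∧ ∃ c ∈ C, m (x t) c ∧ ¬ Q t c) :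
    T.card + k ≤ 2 * d + 1 := by
  classical
  have uS : (C ∩ C').Nonempty → (S ∪ S').card ≤ d + 1 := by
    rintro ⟨c, hcc⟩
    rw [mem_inter] at hcc
    exact union_bound S S' (fun t => Q t c) (fun t => m (x t) c) (fun t => m (y t) c) (hc c)
      (fun a b h h' => hx (hm2 _ _ _ h h')) (fun a b h h' => hy (hm2 _ _ _ h h'))
      (fun t ht => hP t ht c hcc.1) (fun t ht => hP' t ht c hcc.2)
  have uC : (S ∩ S').Nonempty → (C ∪ C').card ≤ d + 1 := by
    rintro ⟨t, htt⟩
    rw [mem_inter] at htt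
    exact union_bound C C' (Q t) (m (x t)) (m (y t)) (hr t)
      (fun a b h h' => hm1 _ _ _ h h') (fun a b h h' => hm1 _ _ _ h h')
      (fun c hc => hP t htt.1 c hc) (fun c hc => hP' t htt.2 c hc)
  have iS := card_union_add_card_inter S S'
  have iC := card_union_add_card_inter C C'
  have kS : (S ∪ S').card ≤ k := by simpa using card_le_univ (S ∪ S')
  have kC : (C ∪ C').card ≤ k := by simpa using card_le_univ (C ∪ C')
  have nS : (S ∩ S').Nonempty := by
    rw [← card_pos]
    by_contra h0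
    have : (C ∩ C').Nonempty := card_pos.mp (by omega)
    have := uS this
    omega
  have nC : (C ∩ C').Nonempty := by
    rw [← card_pos]
    by_contra h0
    have := uC nS
    omega
  have hS1 := uS nC
  have hC1 := uC nS
  have e1 : (S \ S').card + S'.card = (S ∪ S').card := by
    rw [card_sdiff_add_card, union_comm]
    try rw [union_comm]
  have e2 : (C \ C').card + C'.card = (C ∪ C').card := by
    rw [card_sdiff_add_card, union_comm]
    try rw [union_comm]
  have t1 : (T.filter (fun t => t ∉ S')).card ≤ (S \ S').card := card_le_card (fun t ht => by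
    rw [mem_filter] at ht
    exact mem_sdiff.mpr ⟨(hT t ht.1).1, ht.2⟩)
  have t2 : (T.filter (fun t => t ∈ S')).card ≤ (C \ C').card := by
    have hex : ∀ t ∈ T.filter (fun t => t ∈ S'), ∃ c ∈ C \ C', m (x t) c := by
      intro t ht
      rw [mem_filter] at ht
      obtain ⟨_, hne, c, hcC, hmc, hQ⟩ := hT t ht.1
      refine ⟨c, mem_sdiff.mpr ⟨hcC, fun hc' => ?_⟩, hmc⟩
      rcases hP' t ht.2 c hc' with h | h
      · exact hQ h
      · exact hne (hm2 _ _ _ h hmc)
    choose! f hf hf' using hex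
    refine card_le_card_of_injOn f (fun t ht => hf t ht) ?_
    intro t ht t' ht' he
    have h1 := hf' t ht
    have h2 := hf' t' ht'
    rw [← he] at h2
    exact hx (hm2 _ _ _ h1 h2)
  have t3 : (T.filter (fun t => t ∈ S')).card + (T.filter (fun t => t ∉ S')).card = T.card :=
    card_filter_add_card_filter_not _
  omega


theorem max_arith' {k d D s c R : ℕ} (h1 : k < 2 * d) (h2 : d ≤ D) (hk : 7 * D ≤ 4 * k)
    (hs : s ≤ d) (hc : c ≤ d) (hsc : k + 1 ≤ s + c) (hR : 2 * D + 2 * d + 1 = 2 * k + R)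
    (hcount : 2 * c * s ≤ d * s + d * R) : False := by
  zify at *
  have a1 : (0 : ℤ) ≤ d - s := by linarith
  have a2 : (0 : ℤ) ≤ s - (k + 1 - d) := by linarith
  have a3 := mul_nonneg a1 a2
  have b1 : 2 * (k + 1 - s) * (s : ℤ) ≤ 2 * c * s := by nlinarith
  have b3 : (d : ℤ) * (2 * (k + 1 - d) - d) ≤ s * (2 * (k + 1) - 2 * s - d) := by
    nlinarith [mul_nonneg a1 (by positivity : (0 : ℤ) ≤ d)]
  have b4 : (d : ℤ) * (2 * (k + 1 - d) - d) ≤ d * R := by nlinarith
  have hdpos : (0 : ℤ) < d := by linarith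
  have b5 : 2 * (k + 1 - d) - (d : ℤ) ≤ R := le_of_mul_le_mul_left b4 hdpos
  linarith

/-- In a graph of maximum degree at most `D`, with `7D ≤ 4k`, every vertex is reducible. -/
theorem extend_max' [DecidableEq V] {D : ℕ} (hD : 3 ≤ D) (hk : 7 * D ≤ 4 * k)
    (G : SimpleGraph V) (M : V → V → Fin k → Fin k → Prop)
    (hsymm : ∀ u v i j, M u v i j → M v u j i)
    (hmat : ∀ u v, G.Adj u v → ∀ i j j', M u v i j → M u v i j' → j = j')
    (W : Finset V) (u : V)
    (hd1 : k < 2 * (nb G (W.erase u) u).card) (hd2 : (nb G (W.erase u) u).card ≤ D)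
    (hlow : ∀ v ∈ nb G (W.erase u) u, (nb G ((W.erase u).erase v) v).card + 1 ≤ D)
    (φ : V → Fin k → Fin k) (hφ : PackOn G M (W.erase u) φ) :
    ∃ ψ, PackOn G M W ψ := by
  by_contra hcon
  push Not at hcon
  have hmat' : ∀ u v, G.Adj u v → ∀ i i' j, M u v i j → M u v i' j → i = i' := by
    intro a b hab i i' j h h'
    exact hmat b a hab.symm _ _ _ (hsymm _ _ _ _ h) (hsymm _ _ _ _ h')
  set N := nb G (W.erase u) u with hN
  set d := N.card with hd
  -- any packing of the rest is blocked at `u`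
  have hblk : ∀ ψ : V → Fin k → Fin k, PackOn G M (W.erase u) ψ →
      ∃ S C : Finset (Fin k), k + 1 ≤ S.card + C.card ∧ S.card ≤ d ∧ C.card ≤ d ∧
        ∀ t ∈ S, ∀ c ∈ C, Fb M ψ u N t c := by
    intro ψ hp
    obtain ⟨S, C, h1, h2⟩ := hall_rect (Fb M ψ u N) (by
      rintro ⟨y, hy, hy'⟩
      exact hcon _ (extend G M hsymm W u _ hp y hy hy'))
    have h3 := rect_card (Fb M ψ u N)
      (fun t B hB => Fb_row M _ u _ (fun w hw => hmat w u (mem_nb.mp hw).2.symm) t B hB)
      (fun c B hB => Fb_col M _ u _ (fun w hw => hmat' w u (mem_nb.mp hw).2.symm)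
        (fun w hw => hp.1 w (mem_nb.mp hw).1) c B hB) h1 h2
    exact ⟨S, C, h1, h3.1, h3.2, h2⟩
  obtain ⟨S, C, hSC, hS, hC, hP⟩ := hblk φ hφ
  -- the critical rows of a neighbour
  classical
  let T : V → Finset (Fin k) := fun w => S.filter (fun t => ∃ c ∈ C, M w u (φ w t) c ∧
    ∀ w' ∈ N, w' ≠ w → ¬ M w' u (φ w' t) c)
  -- each low neighbour has few critical rows
  have hfew : ∀ v ∈ N, (T v).card + 2 * k ≤ 2 * D + 2 * d + 1 := by
    intro v hv
    have hvW : v ∈ W.erase u := (mem_nb.mp hv).1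
    have huv : G.Adj u v := (mem_nb.mp hv).2
    have hdv := hlow v hv
    set Nv := nb G ((W.erase u).erase v) v with hNv
    have hNvu : ∀ w ∈ Nv, w ∈ W.erase u ∧ G.Adj v w ∧ w ≠ v := by
      intro w hw
      rw [hNv] at hw
      have := mem_nb.mp hw
      exact ⟨(mem_erase.mp this.1).2, this.2, (mem_erase.mp this.1).1⟩
    have hx0 : Injective (φ v) := hφ.1 v hvW
    have hx0' : ∀ t, ¬ Fb M φ v Nv t (φ v t) := by
      rintro t ⟨w, hw, hM⟩
      exact hφ.2 w (hNvu w hw).1 v hvW (hNvu w hw).2.1.symm t hM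
    obtain ⟨x, hx, hx', hag⟩ := few_agree (δ := k - (Nv.card + 1))
      (fun t c => ¬ Fb M φ v Nv t c) (φ v) hx0 hx0'
      (fun t => by
        obtain ⟨B, h1, h2⟩ := compl_ge (fun c => Fb M φ v Nv t c) (fun B hB =>
          (Fb_row M φ v Nv (fun w hw => hmat w v (hNvu w hw).2.1.symm) t B hB))
        exact ⟨B, h1, by omega⟩)
      (fun c => by
        obtain ⟨B, h1, h2⟩ := compl_ge (fun t => Fb M φ v Nv t c) (fun B hB =>
          (Fb_col M φ v Nv (fun w hw => hmat' w v (hNvu w hw).2.1.symm)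
            (fun w hw => hφ.1 w (hNvu w hw).1) c B hB))
        exact ⟨B, h1, by omega⟩)
      (by omega)
    have hp : PackOn G M (W.erase u) (Function.update φ v x) := by
      refine extend G M hsymm (W.erase u) v φ ?_ x hx hx'
      exact ⟨fun a ha => hφ.1 a (mem_erase.mp ha).2, fun a ha b hb =>
        hφ.2 a (mem_erase.mp ha).2 b (mem_erase.mp hb).2⟩
    obtain ⟨S', C', hSC', hS', hC', hP'⟩ := hblk _ hp
    set N' := N.erase v with hN'
    have hN'u : ∀ w ∈ N', w ∈ W.erase u ∧ G.Adj u w ∧ w ≠ v := by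
      intro w hw
      rw [hN', mem_erase] at hw
      exact ⟨(mem_nb.mp hw.2).1, (mem_nb.mp hw.2).2, hw.1⟩
    have hN'c : N'.card + 1 = d := card_erase_add_one hv
    have hnear := near_rect' (d := d) (by omega) (Fb M φ u N') (fun a c => M v u a c)
      (fun a c c' h h' => hmat v u huv.symm a c c' h h')
      (fun a a' c h h' => hmat' v u huv.symm a a' c h h')
      (fun t B hB => by
        have := Fb_row M φ u N' (fun w hw => hmat w u (hN'u w hw).2.1.symm) t B hB
        omega)
      (fun c B hB => by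
        have := Fb_col M φ u N' (fun w hw => hmat' w u (hN'u w hw).2.1.symm)
          (fun w hw => hφ.1 w (hN'u w hw).1) c B hB
        omega)
      (φ v) x hx0 hx hSC hSC' hS hC hS' hC'
      (fun t ht c hc => by
        obtain ⟨w, hw, hM⟩ := hP t ht c hc
        by_cases hwv : w = v
        · subst hwv
          exact Or.inr hM
        · exact Or.inl ⟨w, mem_erase.mpr ⟨hwv, hw⟩, hM⟩)
      (fun t ht c hc => by
        obtain ⟨w, hw, hM⟩ := hP' t ht c hc
        by_cases hwv : w = v
        · subst hwv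
          rw [Function.update_self] at hM
          exact Or.inr hM
        · rw [Function.update_of_ne hwv] at hM
          exact Or.inl ⟨w, mem_erase.mpr ⟨hwv, hw⟩, hM⟩)
      ((T v).filter (fun t => x t ≠ φ v t))
      (fun t ht => by
        rw [mem_filter, mem_filter] at ht
        obtain ⟨⟨htS, c, hcC, hMc, huniq⟩, hne⟩ := ht
        refine ⟨htS, hne, c, hcC, hMc, ?_⟩
        rintro ⟨w, hw, hM⟩
        exact huniq w (mem_erase.mp hw).2 (mem_erase.mp hw).1 hM)
    have h3 : ((T v).filter (fun t => x t = φ v t)).card +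
        ((T v).filter (fun t => x t ≠ φ v t)).card = (T v).card :=
      card_filter_add_card_filter_not _
    rcases hag ((T v).filter (fun t => x t = φ v t)) (fun t ht => (mem_filter.mp ht).2) with h | h
    · omega
    · rw [h, card_empty] at h3
      omega
  -- counting
  have hrow : ∀ t ∈ S, 2 * C.card ≤ d + (N.filter (fun w => t ∈ T w)).card := by
    intro t ht
    refine crit_row N C (fun w c => M w u (φ w t) c)
      (fun w hw c c' h h' => hmat w u (mem_nb.mp hw).2.symm _ _ _ h h')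
      (fun c hc => hP t ht c hc) _ ?_
    intro w hw hex
    exact mem_filter.mpr ⟨hw, mem_filter.mpr ⟨ht, hex⟩⟩
  have hsum := sum_le_sum hrow
  rw [sum_add_distrib, sum_const, sum_const, smul_eq_mul, smul_eq_mul] at hsum
  have hswap : ∑ t ∈ S, (N.filter (fun w => t ∈ T w)).card = ∑ w ∈ N, (T w).card := by
    have : ∀ w ∈ N, (T w).card = (S.filter (fun t => t ∈ T w)).card := by
      intro w _
      congr 1
      ext t
      exact ⟨fun h => mem_filter.mpr ⟨(mem_filter.mp h).1, h⟩, fun h => (mem_filter.mp h).2⟩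
    rw [sum_congr rfl this]
    simp only [card_filter]
    exact sum_comm
  have hsplit : ∑ w ∈ N, (T w).card ≤ d * (2 * D + 2 * d + 1 - 2 * k) := by
    calc ∑ w ∈ N, (T w).card ≤ ∑ _w ∈ N, (2 * D + 2 * d + 1 - 2 * k) := sum_le_sum (fun w hw => by
            have := hfew w hw
            omega)
      _ = _ := by rw [sum_const, smul_eq_mul]
  have hne : ∃ R, 2 * D + 2 * d + 1 = 2 * k + R := ⟨2 * D + 2 * d + 1 - 2 * k, by
    have : N.Nonempty := card_pos.mp (by omega)
    obtain ⟨w, hw⟩ := this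
    have := hfew w hw
    omega⟩
  obtain ⟨R, hR⟩ := hne
  have e1 : 2 * D + 2 * d + 1 - 2 * k = R := by omega
  rw [e1] at hsplit
  rw [hswap] at hsum
  exact max_arith' hd1 hd2 hk hS hC hSC hR (by nlinarith)

theorem pack_all_max' {D : ℕ} (hD : 3 ≤ D) (hk : 7 * D ≤ 4 * k)
    (G : SimpleGraph V) (M : V → V → Fin k → Fin k → Prop)
    (hsymm : ∀ u v i j, M u v i j → M v u j i)
    (hmat : ∀ u v, G.Adj u v → ∀ i j j', M u v i j → M u v i j' → j = j')
    (hs : ∀ (W : Finset V) (v : V), (nb G W v).card ≤ D) :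
    ∀ n, ∀ W : Finset V, W.card = n → ∃ φ, PackOn G M W φ := by
  classical
  intro n
  induction n with
  | zero =>
    intro W hW
    rw [card_eq_zero] at hW
    subst hW
    exact ⟨fun _ => id, by simp, by simp⟩
  | succ n ih =>
    intro W hW
    have hne : W.Nonempty := card_pos.mp (by omega)
    obtain ⟨u, hu⟩ := hne
    obtain ⟨φ, hφ⟩ := ih (W.erase u) (by rw [card_erase_of_mem hu]; omega)
    by_cases hsm : 2 * (nb G (W.erase u) u).card ≤ k
    · exact extend_small G M hsymm hmat W u hsm φ hφ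
    · refine extend_max' hD hk G M hsymm hmat W u (by omega) (hs _ _) ?_ φ hφ
      intro v hv
      have : nb G ((W.erase u).erase v) v ⊆ (nb G W v).erase u := by
        intro w hw
        rw [mem_nb, mem_erase, mem_erase] at hw
        rw [mem_erase, mem_nb]
        exact ⟨hw.1.2.1, hw.1.2.2, hw.2⟩
      have h1 := card_le_card this
      have h2 := card_erase_add_one (mem_nb.mpr ⟨hu, (mem_nb.mp hv).2.symm⟩ : u ∈ nb G W v)
      have h3 := hs W v
      omega

end Pool.Agent.U269.CP
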